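import Pool.Agent.R846.VS.G

/-! # The main theorem on runs following a height -/

set_option autoImplicit false

namespace Pool.Agent.R846.VS

open Filter Topology MeasureTheory
open Pool.Agent.Y743.CL (Zv Zv_meas)
open Pool.Agent.Y743.NC (dev dev_int dev_nonneg)
open Pool.Agent.R321.QA (hs)
open SG (NZ ord ord_le_iff)

lemma count_le {ι : Type*} [DecidableEq ι] (s : Finset ι) (z : ι → ℝ) {Q B : ℝ} (hQ : 0 < Q)
    (hB : ∑ k ∈ s, z k ^ 2 ≤ B) : (((s.filter fun k => Q < |z k|).card : ℕ) : ℝ) ≤ B / Q ^ 2 := by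
  rw [le_div_iff₀ (by positivity)]
  calc (((s.filter fun k => Q < |z k|).card : ℕ) : ℝ) * Q ^ 2
      = ∑ k ∈ s.filter (fun k => Q < |z k|), Q ^ 2 := by rw [Finset.sum_const, nsmul_eq_mul]
    _ ≤ ∑ k ∈ s.filter (fun k => Q < |z k|), z k ^ 2 := by
        refine Finset.sum_le_sum fun k hk => ?_
        rw [← sq_abs (z k)]
        exact pow_le_pow_left₀ hQ.le (Finset.mem_filter.1 hk).2.le 2
    _ ≤ ∑ k ∈ s, z k ^ 2 :=
        Finset.sum_le_sum_of_subset_of_nonneg (Finset.filter_subset _ _) fun _ _ _ => sq_nonneg _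
    _ ≤ B := hB

/-- **almost no run of ordinates following a height is near a fixed finite-dimensional space** -/
theorem vs_main (κ : ℕ) (M : ℝ) {η : ℝ} (hη : 0 < η) : ∃ L₀ : ℕ, ∀ L : ℕ, L₀ ≤ L → ∀ T : ℝ, 1 ≤ T →
    (L : ℝ) * Real.log L ≤ Real.log T → ∀ v : Fin κ → ℕ → ℝ,
    volume {t ∈ Set.Icc T (2 * T) | ∃ c : Fin κ → ℝ, ∀ j ≤ L,
      |ord (NZ t + 1 + j) - ∑ i, c i * v i j| ≤ M * Real.sqrt (Real.log L) / Real.log T} ≤
      ENNReal.ofReal (η * T) := by
  obtain ⟨C, R₀, hC, hexc⟩ := exc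
  obtain ⟨θ, hθ, hcore⟩ := core (κ + 1) (M₁ := 2 * |M| + 1) (η := η / 4) (by positivity) (by positivity)
  set Q := Real.sqrt (160 / (θ * η)) with hQ
  have hQ0 : 0 < Q := Real.sqrt_pos.2 (by positivity)
  have hQ2 : Q ^ 2 = 160 / (θ * η) := Real.sq_sqrt (by positivity)
  obtain ⟨Ξ, ε, σ, hε, hσ, hc⟩ := hcore Q hQ0
  obtain ⟨K0, hK0⟩ := law_vol 1 le_rfl Ξ hε hσ
  set K := max K0 1 with hK
  have hK1 : 1 ≤ K := le_max_right _ _
  have hKr : (1 : ℝ) ≤ K := by exact_mod_cast hK1
  obtain ⟨R1, hR1, hlaw⟩ := hK0 K (le_max_left _ _) (1 / 4) (by norm_num)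
  set Q₂ := Real.sqrt (32 * K / η) with hQ₂
  have hQ₂0 : 0 < Q₂ := Real.sqrt_pos.2 (by positivity)
  have hQ₂2 : Q₂ ^ 2 = 32 * K / η := Real.sq_sqrt (by positivity)
  set S := ⌈13 * Q₂⌉₊ + 16 with hS
  have hSQ : 13 * Q₂ + 16 ≤ S := by
    rw [hS]; push_cast
    linarith [Nat.le_ceil (13 * Q₂)]
  have hS0 : (0 : ℝ) ≤ S := Nat.cast_nonneg S
  set r₀ := 2 * K * (2 * S + 1) * (S / 13 + C) * 1352 / η + 1 with hr₀
  have hr₀0 : 1 ≤ r₀ := by
    rw [hr₀]
    have : 0 ≤ 2 * K * (2 * S + 1) * (S / 13 + C) * 1352 / η := by positivity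
    linarith
  set A₀ := Real.exp (r₀ ^ 2 + (2 * S / 13) ^ 2 + C + 2) + |R₀| + R1 + 4 * K + 224 / η + 3 with hA₀
  refine ⟨2 * ⌈A₀⌉₊ + 2, fun L hL T hT hLT v => ?_⟩
  set a := L / 2 with ha
  set b := a / (2 * K) with hb
  have haL : 2 * a ≤ L := by omega
  have haL' : L ≤ 2 * a + 1 := by omega
  have haA : A₀ ≤ a := by
    have h1 : ⌈A₀⌉₊ ≤ a := by omega
    exact (Nat.le_ceil A₀).trans (by exact_mod_cast h1)
  have hexp0 := Real.exp_pos (r₀ ^ 2 + (2 * S / 13) ^ 2 + C + 2)
  have h224' : 0 ≤ 224 / η := by positivity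
  have hR₀' := abs_nonneg R₀
  have haR₀ : R₀ ≤ a := by linarith [le_abs_self R₀]
  have haR1 : R1 ≤ a := by linarith
  have ha4K : 4 * (K : ℝ) ≤ a := by linarith
  have ha224 : 224 / η ≤ a := by linarith
  have ha3 : (3 : ℝ) ≤ a := by linarith
  have ha0 : (0 : ℝ) < a := by linarith
  have hlogA : r₀ ^ 2 + (2 * S / 13) ^ 2 + C + 2 ≤ Real.log a := by
    rw [Real.le_log_iff_exp_le ha0]
    linarith
  have hq1 := sq_nonneg r₀
  have hq2 := sq_nonneg (2 * (S : ℝ) / 13)
  have hla1 : 1 ≤ Real.log a := by linarith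
  set r := Real.sqrt (Real.log a) with hr
  have hr2 : r ^ 2 = Real.log a := Real.sq_sqrt (by linarith)
  have hr1 : 1 ≤ r := Real.one_le_sqrt.2 hla1
  have hrr₀ : r₀ ≤ r := Real.le_sqrt_of_sq_le (by linarith)
  have hrS : 2 * S / 13 ≤ r := Real.le_sqrt_of_sq_le (by linarith)
  set e := r / 13 with he
  have he0 : 0 < e := by rw [he]; linarith
  have hra : r ^ 2 ≤ a := by
    rw [hr2]
    linarith [Real.log_le_sub_one_of_pos ha0]
  have hSe : (S : ℝ) * e ≤ a / 2 := by
    have h1 : (S : ℝ) * e = (2 * S / 13) * r / 2 := by rw [he]; ring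
    have h2 : (2 * S / 13) * r ≤ r * r := mul_le_mul_of_nonneg_right hrS (by linarith)
    have h3 : r * r = r ^ 2 := by ring
    linarith
  have hlog1 : Real.log (1 + 2 * a) + C ≤ 2 * Real.log a := by
    have h1 : Real.log (1 + 2 * a) ≤ Real.log 3 + Real.log a := by
      rw [← Real.log_mul (by norm_num) (by linarith)]
      exact Real.log_le_log (by linarith) (by linarith)
    have h2 : Real.log 3 ≤ 2 := by
      have := Real.log_le_sub_one_of_pos (by norm_num : (0 : ℝ) < 3)
      linarith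
    linarith
  have haT : (a : ℝ) * Real.log a ≤ Real.log T := by
    refine le_trans ?_ hLT
    have h1 : (a : ℝ) ≤ L := by exact_mod_cast (by omega : a ≤ L)
    exact mul_le_mul h1 (Real.log_le_log ha0 h1) (by linarith) (by linarith)
  have hT0 : 0 < T := by linarith
  have hLT0 : 0 < Real.log T := lt_of_lt_of_le (mul_pos ha0 (by linarith)) haT
  have hKb : 2 * (K * b) ≤ a := by
    have := Nat.mul_div_le a (2 * K)
    rw [← hb] at this
    linarith
  have hKbr : 2 * ((K : ℝ) * b) ≤ a := by exact_mod_cast hKb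
  have hKb4 : 1 / 4 * (a : ℝ) ≤ K * b := by
    have h1 : a < 2 * K * (b + 1) := Nat.lt_mul_div_succ a (by omega)
    have h2 : (a : ℝ) < 2 * K * (b + 1) := by exact_mod_cast h1
    have h3 : 2 * (K : ℝ) * (b + 1) = 2 * (K * b) + 2 * K := by ring
    linarith
  set H := 160 * K * Real.log a / (η * Real.pi ^ 2) with hH
  have hRS : 1 + Q₂ * r + 2 * e ≤ S * e := by
    have h1 : (13 * Q₂ + 16) * e ≤ S * e := mul_le_mul_of_nonneg_right hSQ he0.le
    have h2 : 13 * e = r := by rw [he]; ring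
    have h3 : (13 * Q₂ + 16) * e = Q₂ * r + r + 3 * e := by rw [← h2]; ring
    linarith
  have hbad := hexc K a b S T (Q₂ * r) e H η hK1 hη haR₀ hT haT (by omega) (by linarith)
    (by linarith) hSe hlog1 he0 rfl (by rw [mul_pow, hQ₂2, hr2]) (by
      have h1 : Real.log (1 + S * e) ≤ S * e := by
        have := Real.log_le_sub_one_of_pos (by positivity : 0 < 1 + (S : ℝ) * e)
        linarith
      have h2 : S * e + C ≤ (S / 13 + C) * r := by
        have : C ≤ C * r := le_mul_of_one_le_right hC.le hr1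
        have h3 : (S : ℝ) * e = S / 13 * r := by rw [he]; ring
        rw [h3]; linarith
      have h3 : 2 * K * (2 * S + 1) * (S / 13 + C) ≤ η * r / 1352 := by
        have h4 : 2 * K * (2 * S + 1) * (S / 13 + C) * 1352 / η ≤ r := by linarith
        rw [div_le_iff₀ hη] at h4
        linarith
      calc 2 * K * (2 * S + 1) * (Real.log (1 + S * e) + C)
          ≤ 2 * K * (2 * S + 1) * ((S / 13 + C) * r) := by
            apply mul_le_mul_of_nonneg_left (by linarith) (by positivity)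
        _ = 2 * K * (2 * S + 1) * (S / 13 + C) * r := by ring
        _ ≤ η * r / 1352 * r := mul_le_mul_of_nonneg_right h3 (by linarith)
        _ = η / 8 * e ^ 2 := by rw [he]; ring) ha224
  set m : ℝ := K * b with hm
  have hkm : ∀ k : ℕ, (k : ℝ) * m / K = k * b := fun k => by
    rw [hm]; field_simp
  have hlaw' := hlaw a T m haR1 hT (by linarith) hKb4 (by linarith)
  simp only [hkm] at hlaw'
  have hgood := hc K hK1 T hT0 (fun k t => Zv a T (t + hs ((k : ℝ) * b) T)) hlaw'
    (Fin.cons (fun _ => 1) (fun i k => v i (k * b + a) - v i (k * b)))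
  refine (measure_mono ?_).trans ((measure_union_le _ _).trans
    ((add_le_add hbad hgood).trans ?_))
  · rintro t ⟨ht, c, hcj⟩
    by_cases hG : Good K a b S T (Q₂ * r) e H t
    · right
      refine ⟨ht, ?_, ?_⟩
      · have h1 : ∑ k ∈ Finset.range K, Zv a T (t + hs ((k : ℝ) * b) T) ^ 2 ≤ 160 * K / η := by
          calc _ = Real.pi ^ 2 / Real.log a * ∑ k ∈ Finset.range K, dev T a (t + hs ((k : ℝ) * b) T) := by
                rw [Finset.mul_sum]
                exact Finset.sum_congr rfl fun k _ => Zv_dev' (by linarith) _ _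
            _ ≤ Real.pi ^ 2 / Real.log a * H := mul_le_mul_of_nonneg_left hG.1 (by positivity)
            _ = 160 * K / η := by rw [hH]; field_simp
        refine (count_le _ _ hQ0 h1).trans (le_of_eq ?_)
        rw [hQ2]
        field_simp
      · exact det (M := M) hla1 hLT0 (by omega) (by omega) (by
          rw [← hr]
          have h1 : Real.log L ≤ 2 ^ 2 * Real.log a := by
            have h2 : (L : ℝ) ≤ 1 + 2 * a := by
              have : (L : ℝ) ≤ 2 * a + 1 := by exact_mod_cast haL'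
              linarith
            have h3 : (0 : ℝ) < L := by
              have : (a : ℝ) ≤ L := by exact_mod_cast (by omega : a ≤ L)
              linarith
            have := Real.log_le_log h3 h2
            linarith
          calc Real.sqrt (Real.log L) ≤ Real.sqrt (2 ^ 2 * Real.log a) := Real.sqrt_le_sqrt h1
            _ = 2 * r := by rw [Real.sqrt_mul (by norm_num), Real.sqrt_sq (by norm_num)])
          (by rw [he]) (by positivity) hRS hG.2.1 hG.2.2 v c hcj
    · left
      exact ⟨ht, hG⟩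
  · rw [← ENNReal.ofReal_add (by positivity) (by positivity)]
    apply ENNReal.ofReal_le_ofReal
    have := mul_pos hη hT0
    linarith

end Pool.Agent.R846.VS
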