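import Pool.Agent.R846.VS.H
import Pool.Agent.R321.QB4
import Pool.Agent.R846.UL.EvI

/-! # From heights to zeros, uniformly in a family of sets of heights -/

set_option autoImplicit false

open Filter Topology MeasureTheory Set

namespace Pool.Agent.R846.VS

open SG (ord NZ)
open Pool.Agent.Y743.NC (dev dev_nonneg dev_int var_le unit_count)
open Pool.Agent.Y743.CL (exM big_ev)
open Pool.Agent.R321.QA (palm)

/-- **from heights to zeros** -/
theorem palm_unif {ε : ℝ} (hε : 0 < ε) (hε1 : ε ≤ 1) : ∃ (S' : ℕ) (T1 : ℝ), 10 ≤ T1 ∧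
    ∀ T : ℝ, T1 ≤ T → ∀ (V : ℕ → Set ℝ) (E : ℕ → Prop) [DecidablePred E],
    (∀ s ≤ S', volume (V s ∩ Icc T (2 * T)) ≤ ENNReal.ofReal (ε / (8 * (S' + 1)) * T)) →
    (∀ n, E n → NZ T < n → ∀ s, s ≤ S' → ∀ t, T ≤ t → t ≤ 2 * T → NZ t + 1 = n + s → t ∈ V s) →
    (((Finset.Ioc (NZ T) (NZ (2 * T))).filter E).card : ℝ) ≤ ε * (T * Real.log T / (2 * Real.pi)) := by
  have hpi := Real.pi_pos
  obtain ⟨C, T0, hC, hT0, hvar⟩ := var_le
  obtain ⟨C2, hC2, huc⟩ := unit_count
  obtain ⟨M0, hM01, hM0⟩ := exM C (ε / 16) (by positivity)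
  obtain ⟨T2, hT2, hbig⟩ := big_ev M0 C2 (ε / 8) (by positivity)
  obtain ⟨S', hS'⟩ : ∃ S' : ℕ, S' = ⌈2 * M0⌉₊ := ⟨_, rfl⟩
  have hS'1 : 2 * M0 ≤ S' := by rw [hS']; exact Nat.le_ceil _
  refine ⟨S', max T0 T2, hT0.trans (le_max_left _ _), fun T hT V E _ hV hE => ?_⟩
  have hTT0 : T0 ≤ T := (le_max_left _ _).trans hT
  have hTT2 : T2 ≤ T := (le_max_right _ _).trans hT
  obtain ⟨g1, g2, g3, g4⟩ := hbig T hTT2
  have hT10 : 10 ≤ T := hT0.trans hTT0
  have hT1 : 1 < T := by linarith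
  have hL0 : 0 < Real.log T := by linarith
  obtain ⟨q, hq⟩ : ∃ q : ℝ, q = 2 * Real.pi / Real.log T := ⟨_, rfl⟩
  have hq0 : 0 < q := by rw [hq]; positivity
  rw [← hq] at g2
  have hM00 : 0 < M0 := by linarith
  obtain ⟨ℓ, hℓ⟩ : ∃ ℓ : ℝ, ℓ = M0 * q := ⟨_, rfl⟩
  have hℓ0 : 0 < ℓ := by rw [hℓ]; positivity
  rw [← hℓ] at g2
  obtain ⟨s, hs⟩ : ∃ s : ℝ, s = ε / 16 * M0 := ⟨_, rfl⟩
  have hs0 : 0 < s := by rw [hs]; positivity
  have hs2 : C + Real.log (1 + M0) ≤ s ^ 2 := by
    rw [← hs] at hM0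
    exact (Real.sqrt_le_left hs0.le).1 hM0
  have v1 : ∫ t in Icc T (2 * T), dev T M0 t ≤ T * s ^ 2 :=
    (hvar T hTT0 M0 hM00 g1).trans (mul_le_mul_of_nonneg_left hs2 (by linarith))
  -- the sets
  obtain ⟨U, hU⟩ : ∃ U : Set ℝ, U = ⋃ s ∈ Finset.range (S' + 1), (fun t => t + ℓ) ⁻¹' (V s ∩ Icc T (2 * T)) :=
    ⟨_, rfl⟩
  have hUv : volume U ≤ ENNReal.ofReal (ε / 8 * T) := by
    rw [hU]
    refine (measure_biUnion_finset_le _ _).trans ?_
    calc ∑ s ∈ Finset.range (S' + 1), volume ((fun t => t + ℓ) ⁻¹' (V s ∩ Icc T (2 * T)))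
        ≤ ∑ s ∈ Finset.range (S' + 1), ENNReal.ofReal (ε / (8 * (S' + 1)) * T) := by
          refine Finset.sum_le_sum fun s hs => ?_
          rw [measure_preimage_add_right]
          exact hV s (Nat.lt_succ_iff.1 (Finset.mem_range.1 hs))
      _ = ENNReal.ofReal (ε / 8 * T) := by
          rw [Finset.sum_const, Finset.card_range, nsmul_eq_mul, ← ENNReal.ofReal_natCast,
            ← ENNReal.ofReal_mul (Nat.cast_nonneg _)]
          congr 1
          push_cast
          field_simp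
  obtain ⟨W2, hW2⟩ : ∃ W2 : Set ℝ, W2 = {t | M0 ^ 2 < dev T M0 t} := ⟨_, rfl⟩
  have hW2m : MeasurableSet W2 := by
    rw [hW2]
    exact measurableSet_lt measurable_const (dev_meas T M0)
  have hW2v : volume (W2 ∩ Icc T (2 * T)) ≤ ENNReal.ofReal (ε / 16 * T) := by
    have h1 := cheb (A := T) (B := 2 * T) (dev_meas T M0) (dev_nonneg T M0) (dev_int T M0 _ _) v1
      (show 0 < M0 ^ 2 by positivity)
    refine (measure_mono ?_).trans (h1.trans (ENNReal.ofReal_le_ofReal ?_))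
    · rintro t ⟨h2, h3⟩
      rw [hW2] at h2
      exact ⟨h3, h2⟩
    · rw [div_le_iff₀ (by positivity), hs]
      have h2 : (ε / 16) ^ 2 ≤ ε / 16 := by nlinarith
      have h3 : T * (ε / 16 * M0) ^ 2 = (ε / 16) ^ 2 * (T * M0 ^ 2) := by ring
      rw [h3]
      calc (ε / 16) ^ 2 * (T * M0 ^ 2) ≤ ε / 16 * (T * M0 ^ 2) :=
            mul_le_mul_of_nonneg_right h2 (by positivity)
        _ = ε / 16 * T * M0 ^ 2 := by ring
  set F := (Finset.Ioc (NZ T) (NZ (2 * T))).filter E with hF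
  set S1 := F.filter (fun n => T + 1 ≤ ord n ∧ ord n + 1 ≤ 2 * T) with hS1
  have hmem : ∀ n ∈ F, NZ T < n ∧ n ≤ NZ (2 * T) ∧ E n := by
    intro n hn
    rw [hF, Finset.mem_filter, Finset.mem_Ioc] at hn
    exact ⟨hn.1.1, hn.1.2, hn.2⟩
  have hmem1 : ∀ n ∈ S1, 1 ≤ n ∧ n ∈ F ∧ T + 1 ≤ ord n ∧ ord n + 1 ≤ 2 * T := by
    intro n hn
    rw [hS1, Finset.mem_filter] at hn
    have := (hmem n hn.1).1
    exact ⟨by omega, hn.1, hn.2⟩
  have hp := palm (T := T) (M := M0) (s := s) (A := T) (B := 2 * T) hT1 hM00 hs0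
    (by linarith) S1 (toMeasurable volume U ∪ W2) ((measurableSet_toMeasurable _ _).union hW2m)
    (fun n hn => (hmem1 n hn).1)
    (fun n hn => by
      have := (hmem1 n hn).2.2.1
      rw [← hq, ← hℓ]
      linarith)
    (fun n hn => by
      have := (hmem1 n hn).2.2.2
      linarith)
    (fun n hn t ht1 ht2 => by
      rw [← hq, ← hℓ] at ht1
      obtain ⟨c1, c2, c3, c4⟩ := hmem1 n hn
      obtain ⟨d1, d2, d3⟩ := hmem n c2
      have e1 : n ≤ NZ (t + ℓ) := (SG.ord_le_iff c1 _).mp (by linarith)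
      have e2 : NZ t < n := by
        by_contra hcon
        push Not at hcon
        have := (SG.ord_le_iff c1 _).mpr hcon
        linarith
      by_cases h : NZ (t + ℓ) ≤ NZ t + S'
      · left
        apply subset_toMeasurable
        rw [hU, Set.mem_iUnion₂]
        refine ⟨NZ (t + ℓ) + 1 - n, Finset.mem_range.2 (by omega), ?_⟩
        refine ⟨hE n d3 d1 _ (by omega) (t + ℓ) (by linarith) (by linarith) (by omega), ?_, ?_⟩
        · linarith
        · linarith
      · right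
        rw [hW2]
        show M0 ^ 2 < dev T M0 t
        have h1 : (NZ t : ℝ) + S' < NZ (t + ℓ) := by
          have := not_le.1 h
          exact_mod_cast this
        unfold dev
        have e3 : t + 2 * Real.pi * M0 / Real.log T = t + ℓ := by rw [hℓ, hq]; ring
        rw [e3]
        exact pow_lt_pow_left₀ (by linarith) hM00.le two_ne_zero)
  rw [← hq] at hp
  have hWv : volume.real ((toMeasurable volume U ∪ W2) ∩ Icc T (2 * T)) ≤ (ε / 8 + ε / 16) * T := by
    have h1 : volume ((toMeasurable volume U ∪ W2) ∩ Icc T (2 * T)) ≤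
        ENNReal.ofReal ((ε / 8 + ε / 16) * T) := by
      calc _ ≤ volume (toMeasurable volume U ∪ (W2 ∩ Icc T (2 * T))) := by
            apply measure_mono
            rintro x ⟨h1 | h1, h2⟩
            · exact Or.inl h1
            · exact Or.inr ⟨h1, h2⟩
        _ ≤ volume (toMeasurable volume U) + volume (W2 ∩ Icc T (2 * T)) := measure_union_le _ _
        _ ≤ ENNReal.ofReal (ε / 8 * T) + ENNReal.ofReal (ε / 16 * T) := by
            rw [measure_toMeasurable]
            exact add_le_add hUv hW2v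
        _ = _ := by
            rw [← ENNReal.ofReal_add (by positivity) (by positivity)]
            congr 1
            ring
    unfold Measure.real
    exact ENNReal.toReal_le_of_le_ofReal (by positivity) h1
  have hS1c : q * S1.card ≤ (ε / 8 + ε / 16 + ε / 16) * T := by
    have h1 : (1 / s) * ∫ t in Icc T (2 * T), dev T M0 t ≤ s * T := by
      calc (1 / s) * ∫ t in Icc T (2 * T), dev T M0 t ≤ (1 / s) * (T * s ^ 2) :=
            mul_le_mul_of_nonneg_left v1 (by positivity)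
        _ = s * T := by field_simp
    have h3 : s * (2 * T - T) = s * T := by ring
    have h4 : M0 * volume.real ((toMeasurable volume U ∪ W2) ∩ Icc T (2 * T)) ≤
        M0 * ((ε / 8 + ε / 16) * T) := mul_le_mul_of_nonneg_left hWv hM00.le
    have h5 : s * T = M0 * (ε / 16 * T) := by rw [hs]; ring
    have e5 : M0 * (q * S1.card) = M0 * q * S1.card := by ring
    have e6 : M0 * ((ε / 8 + ε / 16 + ε / 16) * T) = M0 * ((ε / 8 + ε / 16) * T) + M0 * (ε / 16 * T) := by
      ring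
    refine le_of_mul_le_mul_left ?_ hM00
    rw [e5, e6, ← h5]
    linarith
  -- the edges
  have hrest : ((F.filter (fun n => ¬ (T + 1 ≤ ord n ∧ ord n + 1 ≤ 2 * T))).card : ℝ) ≤
      2 * (C2 * Real.log (2 * T)) := by
    have hsub : F.filter (fun n => ¬ (T + 1 ≤ ord n ∧ ord n + 1 ≤ 2 * T)) ⊆
        Finset.Ioc (NZ T) (NZ (T + 1)) ∪ Finset.Ioc (NZ (2 * T - 1)) (NZ (2 * T)) := by
      intro n hn
      rw [Finset.mem_filter] at hn
      obtain ⟨b1, b2⟩ := hn
      obtain ⟨a1, a2, -⟩ := hmem n b1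
      rw [Finset.mem_union, Finset.mem_Ioc, Finset.mem_Ioc]
      rcases not_and_or.1 b2 with h | h
      · left
        push Not at h
        exact ⟨a1, (SG.ord_le_iff (by omega) _).mp h.le⟩
      · right
        push Not at h
        refine ⟨?_, a2⟩
        by_contra hcon
        push Not at hcon
        have := (SG.ord_le_iff (by omega) _).mpr hcon
        linarith
    have h1 := (Finset.card_le_card hsub).trans (Finset.card_union_le _ _)
    rw [Nat.card_Ioc, Nat.card_Ioc] at h1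
    have hmono1 : NZ T ≤ NZ (T + 1) := SG.NZ_mono (by linarith)
    have hmono2 : NZ (2 * T - 1) ≤ NZ (2 * T) := SG.NZ_mono (by linarith)
    have h2 : ((F.filter (fun n => ¬ (T + 1 ≤ ord n ∧ ord n + 1 ≤ 2 * T))).card : ℝ) ≤
        ((NZ (T + 1) - NZ T : ℕ) : ℝ) + ((NZ (2 * T) - NZ (2 * T - 1) : ℕ) : ℝ) := by exact_mod_cast h1
    rw [Nat.cast_sub hmono1, Nat.cast_sub hmono2] at h2
    have h3 := huc T (by linarith)
    have h4 := huc (2 * T - 1) (by linarith)
    rw [show 2 * T - 1 + 1 = 2 * T by ring] at h4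
    have h5 : Real.log T ≤ Real.log (2 * T) := Real.log_le_log (by linarith) (by linarith)
    have h6 : Real.log (2 * T - 1) ≤ Real.log (2 * T) := Real.log_le_log (by linarith) (by linarith)
    have h7 := mul_le_mul_of_nonneg_left h5 hC2.le
    have h8 := mul_le_mul_of_nonneg_left h6 hC2.le
    linarith
  have hsplit1 := Finset.card_filter_add_card_filter_not (s := F)
    (fun n => T + 1 ≤ ord n ∧ ord n + 1 ≤ 2 * T)
  have hs1 : (F.card : ℝ) = S1.card + ((F.filter (fun n => ¬ (T + 1 ≤ ord n ∧ ord n + 1 ≤ 2 * T))).card : ℝ) := by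
    exact_mod_cast hsplit1.symm
  have e7 : T * Real.log T / (2 * Real.pi) = T / q := by rw [hq]; field_simp
  rw [e7] at g3 ⊢
  have hS1d : (S1.card : ℝ) ≤ (ε / 8 + ε / 16 + ε / 16) * (T / q) := by
    rw [← mul_div_assoc, le_div_iff₀ hq0]; linarith
  rw [hs1]
  have hTq : 0 < ε * (T / q) := by positivity
  linarith

end Pool.Agent.R846.VS
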