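import Pool.Agent.R846.VS.I

/-! # The theorem for the ordinates up to `N` -/

set_option autoImplicit false

open Filter Topology MeasureTheory Set

namespace Pool.Agent.R846.VS

open SG (ord NZ)
open Pool.Agent.R846.UL (cn cn_eq)

/-- one dyadic block -/
theorem blk (κ : ℕ) (M : ℝ) {ε : ℝ} (hε : 0 < ε) (hε1 : ε ≤ 1) : ∃ L₀ : ℕ, ∀ L : ℕ, L₀ ≤ L →
    ∀ T : ℝ, 1 ≤ T → (L : ℝ) * Real.log L ≤ 2 * Real.log T → ∀ v : Fin κ → ℕ → ℝ,
    ∀ (E : ℕ → Prop) [DecidablePred E], (∀ n, E n → ∃ c : Fin κ → ℝ, ∀ j ≤ L,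
      |ord (n + j) - ∑ i, c i * v i j| ≤ M * Real.sqrt (Real.log L) / Real.log (ord n)) →
    (((Finset.Ioc (NZ T) (NZ (2 * T))).filter E).card : ℝ) ≤ ε * (T * Real.log T / (2 * Real.pi)) := by
  obtain ⟨S', T1, hT1, hpalm⟩ := palm_unif hε hε1
  obtain ⟨L1, hL1⟩ := vs_main κ (2 * |M|) (η := ε / (8 * (S' + 1))) (by positivity)
  obtain ⟨L2, hL2⟩ := (Pool.Agent.Y743.CL.bigT 2 (by norm_num) T1).exists_forall_of_atTop
  refine ⟨2 * L1 + L2 + 2 * S' + 8, fun L hL T hT hLT v E _ hE => ?_⟩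
  have hTT1 := hL2 L (by omega) T hT hLT
  obtain ⟨L', hL'⟩ : ∃ L' : ℕ, L' = L / 2 := ⟨_, rfl⟩
  have h1 : L1 ≤ L' := by omega
  have h2 : L' + S' ≤ L := by omega
  have h3 : 4 ≤ L' := by omega
  have h4 : L ≤ L' ^ 2 := by
    have : L ≤ 2 * L' + 1 := by omega
    nlinarith
  have h5 : 2 * L' ≤ L := by omega
  have hL'r : (4 : ℝ) ≤ L' := by exact_mod_cast h3
  have h5r : 2 * (L' : ℝ) ≤ L := by exact_mod_cast h5
  have hLr : (8 : ℝ) ≤ L := by linarith
  have hlogL : 0 < Real.log L := Real.log_pos (by linarith)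
  have hlogL' : 0 < Real.log L' := Real.log_pos (by linarith)
  have h6 : (L' : ℝ) * Real.log L' ≤ Real.log T := by
    have a1 : Real.log L' ≤ Real.log L := Real.log_le_log (by linarith) (by linarith)
    have a2 : (2 * (L' : ℝ)) * Real.log L' ≤ L * Real.log L := mul_le_mul h5r a1 hlogL'.le (by linarith)
    linarith
  have h7 : Real.sqrt (Real.log L) ≤ 2 * Real.sqrt (Real.log L') := by
    have a1 : Real.log L ≤ 2 * Real.log L' := by
      have a2 : (L : ℝ) ≤ (L' : ℝ) ^ 2 := by exact_mod_cast h4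
      calc Real.log L ≤ Real.log ((L' : ℝ) ^ 2) := Real.log_le_log (by linarith) a2
        _ = 2 * Real.log L' := by rw [Real.log_pow]; norm_num
    calc Real.sqrt (Real.log L) ≤ Real.sqrt (2 ^ 2 * Real.log L') := Real.sqrt_le_sqrt (by linarith)
      _ = 2 * Real.sqrt (Real.log L') := by rw [Real.sqrt_mul (by norm_num), Real.sqrt_sq (by norm_num)]
  have hT10 : 10 ≤ T := hT1.trans hTT1
  have hlogT : 0 < Real.log T := Real.log_pos (by linarith)
  refine hpalm T hTT1 (fun s => {t | ∃ c : Fin κ → ℝ, ∀ j ≤ L',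
      |ord (NZ t + 1 + j) - ∑ i, c i * v i (s + j)| ≤
        2 * |M| * Real.sqrt (Real.log L') / Real.log T}) E ?_ ?_
  · intro s _
    refine le_trans (measure_mono ?_) (hL1 L' h1 T hT h6 (fun i j => v i (s + j)))
    rintro t ⟨h8, h9⟩
    exact ⟨h9, h8⟩
  · intro n hn hnT s hs t _ _ hts
    obtain ⟨c, hc⟩ := hE n hn
    refine ⟨c, fun j hj => ?_⟩
    have h8 := hc (s + j) (by omega)
    have e1 : NZ t + 1 + j = n + (s + j) := by omega
    rw [e1]
    refine h8.trans ?_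
    have h9 : T < ord n := by
      by_contra hcon
      push Not at hcon
      have := (SG.ord_le_iff (by omega : 1 ≤ n) _).mp hcon
      omega
    have h10 : Real.log T ≤ Real.log (ord n) := Real.log_le_log (by linarith) h9.le
    calc M * Real.sqrt (Real.log L) / Real.log (ord n)
        ≤ (|M| * (2 * Real.sqrt (Real.log L'))) / Real.log (ord n) := by
          apply div_le_div_of_nonneg_right _ (by linarith)
          calc M * Real.sqrt (Real.log L) ≤ |M| * Real.sqrt (Real.log L) :=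
                mul_le_mul_of_nonneg_right (le_abs_self _) (Real.sqrt_nonneg _)
            _ ≤ _ := mul_le_mul_of_nonneg_left h7 (abs_nonneg _)
      _ ≤ (|M| * (2 * Real.sqrt (Real.log L'))) / Real.log T :=
          div_le_div_of_nonneg_left (by positivity) hlogT h10
      _ = _ := by ring

/-- **almost no run of ordinates is near a given finite-dimensional space of sequences** -/
theorem vs_ord (κ : ℕ) (M : ℝ) {η : ℝ} (hη : 0 < η) : ∃ L₀ : ℕ, ∀ L : ℕ, L₀ ≤ L → ∀ N : ℕ, 1 ≤ N →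
    (L : ℝ) * Real.log L ≤ Real.log N → ∀ v : Fin κ → ℕ → ℝ,
    cn N {n | ∃ c : Fin κ → ℝ, ∀ j ≤ L, |ord (n + j) - ∑ i, c i * v i j| ≤
      M * Real.sqrt (Real.log L) / Real.log (ord n)} ≤ η * N := by
  classical
  obtain ⟨e, he⟩ : ∃ e : ℝ, e = min (η / 2) 1 := ⟨_, rfl⟩
  have he0 : 0 < e := by rw [he]; exact lt_min (by positivity) one_pos
  have he1 : e ≤ 1 := by rw [he]; exact min_le_right _ _
  have heη : e ≤ η / 2 := by rw [he]; exact min_le_left _ _
  obtain ⟨N₀, hN₀, hasm⟩ := Pool.Agent.R320.CL.asm e he0 he1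
  obtain ⟨L1, hL1⟩ := blk κ M he0 he1
  refine ⟨max L1 (max N₀ 3), fun L hL N hN hLN v => ?_⟩
  have h1 : L1 ≤ L := (le_max_left _ _).trans hL
  have h2 : N₀ ≤ L := ((le_max_left _ _).trans (le_max_right _ _)).trans hL
  have h3 : 3 ≤ L := ((le_max_right _ _).trans (le_max_right _ _)).trans hL
  have h3r : (3 : ℝ) ≤ L := by exact_mod_cast h3
  have hlogL : 1 ≤ Real.log L := by
    rw [Real.le_log_iff_exp_le (by linarith)]
    linarith [Real.exp_one_lt_d9]
  have hNpos : (0 : ℝ) < N := by exact_mod_cast hN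
  have hLN' : (L : ℝ) ≤ N := by
    have a1 := Real.log_le_sub_one_of_pos hNpos
    have a2 : (L : ℝ) * 1 ≤ L * Real.log L := mul_le_mul_of_nonneg_left hlogL (by linarith)
    linarith
  have hNN : N₀ ≤ N := by
    have : L ≤ N := by exact_mod_cast hLN'
    omega
  have g1 := hasm N hNN (fun n => ∃ c : Fin κ → ℝ, ∀ j ≤ L, |ord (n + j) - ∑ i, c i * v i j| ≤
      M * Real.sqrt (Real.log L) / Real.log (ord n)) e he0.le (by linarith)
    (fun T hT hlog => by
      rw [mul_comm (T * Real.log T / (2 * Real.pi)) e]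
      exact hL1 L h1 T hT (hLN.trans hlog) v _ (fun n hn => hn))
  rw [cn_eq]
  refine g1.trans (mul_le_mul_of_nonneg_right (by linarith) hNpos.le)

end Pool.Agent.R846.VS
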