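import Pool.Agent.R846.VS.B

/-! # Sets near a space of small dimension -/

set_option autoImplicit false

namespace Pool.Agent.R846.VS

open Filter Topology MeasureTheory Complex

/-- **selection** of points of a set of positive measure with independent values -/
theorem sel {T : ℝ} (Z : ℕ → ℝ → ℝ) {K : ℕ} {ε σ η : ℝ} (hε : 0 < ε)
    (Θ : Finset (ℕ → ℝ)) (N : ℕ)
    (h : ∀ θ ∈ Θ, ∀ i < N, ∀ w : ℕ → ℂ, (∀ k, ‖w k‖ ≤ 1) → volume {t ∈ Set.Icc T (2 * T) |
      ε < ‖(1 / K : ℂ) * ∑ k ∈ Finset.range K, w k * (cexp (I * ((θ i * Z k t : ℝ) : ℂ)) -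
        (ph (θ i) : ℂ))‖} ≤ ENNReal.ofReal (σ * T))
    (hσ : (Θ.card : ENNReal) * ENNReal.ofReal (σ * T) ≤ ENNReal.ofReal (η * T))
    (B : Set ℝ) (hB : B ⊆ Set.Icc T (2 * T)) (hBv : ENNReal.ofReal (η * T) < volume B) :
    ∀ n ≤ N, ∃ s : ℕ → ℝ, (∀ i < n, s i ∈ B) ∧ ∀ θ ∈ Θ,
      ‖(1 / K : ℂ) * ∑ k ∈ Finset.range K, ∏ i ∈ Finset.range n, cexp (I * ((θ i * Z k (s i) : ℝ) : ℂ)) -
        ∏ i ∈ Finset.range n, (ph (θ i) : ℂ)‖ ≤ n * ε ∨ K = 0 := by
  classical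
  intro n
  induction n with
  | zero =>
    intro _
    refine ⟨fun _ => 0, fun i hi => absurd hi (Nat.not_lt_zero i), fun θ _ => ?_⟩
    rcases Nat.eq_zero_or_pos K with hK | hK
    · exact Or.inr hK
    · left
      have hKc : (K : ℂ) ≠ 0 := by exact_mod_cast hK.ne'
      simp [hKc]
  | succ n ih =>
    intro hn
    obtain ⟨s, hs1, hs2⟩ := ih (by omega)
    set w : (ℕ → ℝ) → ℕ → ℂ := fun θ k => ∏ i ∈ Finset.range n, cexp (I * ((θ i * Z k (s i) : ℝ) : ℂ)) with hw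
    have hexp : ∀ x : ℝ, ‖cexp (I * (x : ℂ))‖ = 1 := fun x => by
      rw [mul_comm, Complex.norm_exp_ofReal_mul_I]
    have hw1 : ∀ θ k, ‖w θ k‖ = 1 := by
      intro θ k
      rw [hw]
      simp only [norm_prod, hexp, Finset.prod_const_one]
    set E : (ℕ → ℝ) → Set ℝ := fun θ => {t ∈ Set.Icc T (2 * T) |
      ε < ‖(1 / K : ℂ) * ∑ k ∈ Finset.range K, w θ k * (cexp (I * ((θ n * Z k t : ℝ) : ℂ)) -
        (ph (θ n) : ℂ))‖} with hE
    have hvol : volume (⋃ θ ∈ Θ, E θ) ≤ ENNReal.ofReal (η * T) := by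
      refine (measure_biUnion_finset_le Θ E).trans ?_
      calc ∑ θ ∈ Θ, volume (E θ) ≤ ∑ θ ∈ Θ, ENNReal.ofReal (σ * T) :=
            Finset.sum_le_sum fun θ hθ => h θ hθ n (by omega) (w θ) fun k => (hw1 θ k).le
        _ = (Θ.card : ENNReal) * ENNReal.ofReal (σ * T) := by rw [Finset.sum_const, nsmul_eq_mul]
        _ ≤ _ := hσ
    obtain ⟨x, hxB, hxE⟩ : ∃ x ∈ B, x ∉ ⋃ θ ∈ Θ, E θ := by
      by_contra hcon
      push Not at hcon
      exact absurd ((measure_mono hcon).trans hvol) (not_le.2 hBv)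
    refine ⟨Function.update s n x, fun i hi => ?_, fun θ hθ => ?_⟩
    · rcases Nat.lt_succ_iff_lt_or_eq.mp hi with h1 | h1
      · rw [Function.update_of_ne (by omega)]
        exact hs1 i h1
      · rw [h1, Function.update_self]
        exact hxB
    · rcases hs2 θ hθ with h2 | h2
      swap
      · exact Or.inr h2
      left
      have h3 : ‖(1 / K : ℂ) * ∑ k ∈ Finset.range K, w θ k * (cexp (I * ((θ n * Z k x : ℝ) : ℂ)) -
        (ph (θ n) : ℂ))‖ ≤ ε := by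
        by_contra h4
        apply hxE
        rw [Set.mem_iUnion₂]
        exact ⟨θ, hθ, hB hxB, not_le.1 h4⟩
      have e1 : ∀ k, ∏ i ∈ Finset.range (n + 1), cexp (I * ((θ i * Z k (Function.update s n x i) : ℝ) : ℂ)) =
          w θ k * cexp (I * ((θ n * Z k x : ℝ) : ℂ)) := by
        intro k
        rw [Finset.prod_range_succ, Function.update_self]
        congr 1
        refine Finset.prod_congr rfl fun i hi => ?_
        rw [Function.update_of_ne (by have := Finset.mem_range.1 hi; omega)]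
      have e2 : (1 / K : ℂ) * ∑ k ∈ Finset.range K,
          ∏ i ∈ Finset.range (n + 1), cexp (I * ((θ i * Z k (Function.update s n x i) : ℝ) : ℂ)) -
          ∏ i ∈ Finset.range (n + 1), (ph (θ i) : ℂ) =
          (1 / K : ℂ) * ∑ k ∈ Finset.range K, w θ k * (cexp (I * ((θ n * Z k x : ℝ) : ℂ)) - (ph (θ n) : ℂ)) +
          ((1 / K : ℂ) * ∑ k ∈ Finset.range K, w θ k - ∏ i ∈ Finset.range n, (ph (θ i) : ℂ)) *
            (ph (θ n) : ℂ) := by
        rw [Finset.prod_range_succ]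
        simp only [e1, mul_sub, Finset.sum_sub_distrib]
        rw [← Finset.sum_mul]
        ring
      rw [e2]
      refine (norm_add_le _ _).trans ?_
      have h5 : ‖((1 / K : ℂ) * ∑ k ∈ Finset.range K, w θ k - ∏ i ∈ Finset.range n, (ph (θ i) : ℂ)) *
            (ph (θ n) : ℂ)‖ ≤ n * ε := by
        rw [norm_mul, Complex.norm_real, Real.norm_eq_abs, abs_of_pos (ph_pos _)]
        calc _ ≤ (n * ε) * 1 := mul_le_mul h2 (ph_le _) (ph_pos _).le (by positivity)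
          _ = n * ε := mul_one _
      have h6 : ((n + 1 : ℕ) : ℝ) * ε = ε + n * ε := by push_cast; ring
      rw [h6]
      exact add_le_add h3 h5

/-- a finite net of the unit sphere -/
lemma net (N : ℕ) {μ : ℝ} (hμ : 0 < μ) : ∃ S : Finset (ℕ → ℝ), (∀ c ∈ S, ∑ i ∈ Finset.range N, c i ^ 2 = 1) ∧
    ∀ c : ℕ → ℝ, ∑ i ∈ Finset.range N, c i ^ 2 = 1 → ∃ c' ∈ S, ∀ i < N, |c i - c' i| ≤ μ := by
  classical
  set Y : Set (Fin N → ℝ) := {c | ∑ i, c i ^ 2 = 1} with hY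
  have hclosed : IsClosed Y := isClosed_eq (by fun_prop) continuous_const
  have hbd : Y ⊆ Set.pi Set.univ fun _ => Set.Icc (-1 : ℝ) 1 := by
    intro c hc i _
    have h1 : c i ^ 2 ≤ ∑ j, c j ^ 2 := Finset.single_le_sum (f := fun j => c j ^ 2)
      (fun j _ => sq_nonneg _) (Finset.mem_univ i)
    have h2 : ∑ j, c j ^ 2 = 1 := hc
    rw [h2] at h1
    exact abs_le.mp ((sq_le_one_iff_abs_le_one _).mp h1)
  have hcomp : IsCompact Y :=
    (isCompact_univ_pi fun _ => isCompact_Icc).of_isClosed_subset hclosed hbd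
  obtain ⟨F, hF1, hF2, hF3⟩ := hcomp.finite_cover_balls hμ
  refine ⟨hF2.toFinset.image fun c => fun i => if h : i < N then c ⟨i, h⟩ else 0, ?_, ?_⟩
  · intro c hc
    obtain ⟨c0, hc0, rfl⟩ := Finset.mem_image.1 hc
    have h1 : ∑ i, c0 i ^ 2 = 1 := hF1 (hF2.mem_toFinset.1 hc0)
    rw [Finset.sum_range]
    rw [← h1]
    refine Finset.sum_congr rfl fun i _ => ?_
    show (if h : (i : ℕ) < N then c0 ⟨i, h⟩ else 0) ^ 2 = _
    rw [dif_pos i.isLt]
  · intro c hc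
    have h1 : (fun i : Fin N => c i) ∈ Y := by
      show ∑ i : Fin N, c i ^ 2 = 1
      rw [← Finset.sum_range fun i => c i ^ 2]
      exact hc
    obtain ⟨c0, hc0, hball⟩ := Set.mem_iUnion₂.1 (hF3 h1)
    refine ⟨_, Finset.mem_image.2 ⟨c0, hF2.mem_toFinset.2 hc0, rfl⟩, fun i hi => ?_⟩
    have h2 := (dist_pi_lt_iff hμ).1 (Metric.mem_ball.1 hball) ⟨i, hi⟩
    rw [Real.dist_eq] at h2
    simp only [dif_pos hi]
    exact h2.le

/-- a linear relation between the coefficient vectors -/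
lemma rel (κ : ℕ) (α : ℕ → Fin κ → ℝ) : ∃ c : ℕ → ℝ, ∑ i ∈ Finset.range (κ + 1), c i ^ 2 = 1 ∧
    ∀ l, ∑ i ∈ Finset.range (κ + 1), c i * α i l = 0 := by
  classical
  set L : (Fin (κ + 1) → ℝ) →ₗ[ℝ] (Fin κ → ℝ) :=
    Fintype.linearCombination ℝ fun i : Fin (κ + 1) => α i with hL
  have hker : LinearMap.ker L ≠ ⊥ := by
    apply LinearMap.ker_ne_bot_of_finrank_lt
    rw [Module.finrank_fin_fun, Module.finrank_fin_fun]
    exact Nat.lt_succ_self κ
  obtain ⟨b, hb, hb0⟩ := (Submodule.ne_bot_iff _).mp hker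
  rw [LinearMap.mem_ker] at hb
  have hpos : 0 < ∑ i, b i ^ 2 := by
    obtain ⟨i, hi⟩ := Function.ne_iff.mp hb0
    refine Finset.sum_pos' (fun i _ => sq_nonneg _) ⟨i, Finset.mem_univ i, ?_⟩
    have : b i ≠ 0 := hi
    positivity
  obtain ⟨q, hq⟩ : ∃ q : ℝ, q = Real.sqrt (∑ i, b i ^ 2) := ⟨_, rfl⟩
  have hq0 : 0 < q := by rw [hq]; exact Real.sqrt_pos.2 hpos
  have hq2 : q ^ 2 = ∑ i, b i ^ 2 := by rw [hq]; exact Real.sq_sqrt hpos.le
  refine ⟨fun i => if h : i < κ + 1 then b ⟨i, h⟩ / q else 0, ?_, fun l => ?_⟩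
  · rw [Finset.sum_range]
    have e1 : ∀ i : Fin (κ + 1), (if h : (i : ℕ) < κ + 1 then b ⟨i, h⟩ / q else 0) ^ 2 = b i ^ 2 / q ^ 2 := by
      intro i
      rw [dif_pos i.isLt, div_pow]
    simp only [e1]
    rw [← Finset.sum_div, hq2, div_self hpos.ne']
  · rw [Finset.sum_range]
    have e1 : ∀ i : Fin (κ + 1), (if h : (i : ℕ) < κ + 1 then b ⟨i, h⟩ / q else 0) * α i l =
        (b i * α i l) / q := by
      intro i
      rw [dif_pos i.isLt]
      ring
    simp only [e1]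
    rw [← Finset.sum_div]
    have e2 : ∑ i : Fin (κ + 1), b i * α i l = 0 := by
      have h1 := congrFun hb l
      rw [hL, Fintype.linearCombination_apply] at h1
      simpa [Finset.sum_apply, smul_eq_mul] using h1
    rw [e2, zero_div]

/-- **the set of the points near a space of dimension `κ`** -/
theorem core (κ : ℕ) (M₁ η : ℝ) (hM : 0 ≤ M₁) (hη : 0 < η) : ∃ θ₁ : ℝ, 0 < θ₁ ∧ ∀ Q : ℝ, 0 < Q →
    ∃ (Ξ : Finset ℝ) (ε σ : ℝ), 0 < ε ∧ 0 < σ ∧ ∀ (K : ℕ), 1 ≤ K → ∀ T : ℝ, 0 < T → ∀ Z : ℕ → ℝ → ℝ,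
    (∀ ξ ∈ Ξ, ∀ w : ℕ → ℂ, (∀ k, ‖w k‖ ≤ 1) → volume {t ∈ Set.Icc T (2 * T) |
      ε < ‖(1 / K : ℂ) * ∑ k ∈ Finset.range K, w k * (cexp (I * ((ξ * Z k t : ℝ) : ℂ)) - (ph ξ : ℂ))‖} ≤
      ENNReal.ofReal (σ * T)) →
    ∀ g : Fin κ → ℕ → ℝ, volume {t ∈ Set.Icc T (2 * T) |
      (((Finset.range K).filter fun k => Q < |Z k t|).card : ℝ) ≤ θ₁ * K ∧
      ∃ α : Fin κ → ℝ, ∀ k < K, |Z k t - ∑ l, α l * g l k| ≤ M₁} ≤ ENNReal.ofReal (η * T) := by
  classical
  obtain ⟨N, hN⟩ : ∃ N : ℕ, N = κ + 1 := ⟨_, rfl⟩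
  have hN0 : (0 : ℝ) < N := by rw [hN]; positivity
  obtain ⟨M₂, hM₂⟩ : ∃ M₂ : ℝ, M₂ = N * M₁ + 1 := ⟨_, rfl⟩
  have hM₂0 : 0 < M₂ := by rw [hM₂]; positivity
  obtain ⟨r, ξ, θ₀, ε₀, hθ₀, hε₀, htrig⟩ := trig M₂ hM₂0
  refine ⟨θ₀ / N, by positivity, fun Q hQ => ?_⟩
  obtain ⟨μ, hμ⟩ : ∃ μ : ℝ, μ = 1 / (N * Q) := ⟨_, rfl⟩
  have hμ0 : 0 < μ := by rw [hμ]; positivity
  obtain ⟨S, hS1, hS2⟩ := net N hμ0
  -- the frequency vectors
  set Θ : Finset (ℕ → ℝ) := ((Finset.range (r + 1) ×ˢ Finset.range (r + 1)) ×ˢ S).image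
    (fun q => fun i => ((q.1.1 : ℝ) - q.1.2) * ξ * q.2 i) with hΘ
  set Ξ : Finset ℝ := (Θ ×ˢ Finset.range N).image (fun q => q.1 q.2) with hΞ
  obtain ⟨σ, hσ⟩ : ∃ σ : ℝ, σ = η / (Θ.card + 1) := ⟨_, rfl⟩
  have hσ0 : 0 < σ := by rw [hσ]; positivity
  refine ⟨Ξ, ε₀ / N, σ, by positivity, hσ0, fun K hK T hT Z h g => ?_⟩
  have hK0 : (0 : ℝ) < K := by exact_mod_cast hK
  by_contra hcon
  rw [not_le] at hcon
  set B := {t ∈ Set.Icc T (2 * T) |
      (((Finset.range K).filter fun k => Q < |Z k t|).card : ℝ) ≤ θ₀ / N * K ∧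
      ∃ α : Fin κ → ℝ, ∀ k < K, |Z k t - ∑ l, α l * g l k| ≤ M₁} with hB
  obtain ⟨s, hs1, hs2⟩ := sel Z (K := K) (ε := ε₀ / N) (σ := σ) (η := η) (by positivity) Θ N
    (fun θ hθ i hi w hw => h (θ i) (Finset.mem_image.2 ⟨(θ, i), Finset.mem_product.2
      ⟨hθ, Finset.mem_range.2 hi⟩, rfl⟩) w hw)
    (by
      rw [← ENNReal.ofReal_natCast, ← ENNReal.ofReal_mul (Nat.cast_nonneg _)]
      apply ENNReal.ofReal_le_ofReal
      rw [hσ, ← mul_assoc]
      apply mul_le_mul_of_nonneg_right _ hT.le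
      rw [mul_div_assoc', div_le_iff₀ (by positivity)]
      nlinarith)
    B (fun t ht => ht.1) hcon N le_rfl
  have hα : ∀ i : ℕ, ∃ α : Fin κ → ℝ, i < N → ∀ k < K, |Z k (s i) - ∑ l, α l * g l k| ≤ M₁ := by
    intro i
    by_cases hi : i < N
    · obtain ⟨α, hα⟩ := (hs1 i hi).2.2
      exact ⟨α, fun _ => hα⟩
    · exact ⟨0, fun h => absurd h hi⟩
  choose α hα using hα
  obtain ⟨c, hc1, hc2⟩ := rel κ α
  rw [← hN] at hc1 hc2
  obtain ⟨c', hc'S, hcc'⟩ := hS2 c hc1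
  have hc'1 := hS1 c' hc'S
  have hcle : ∀ i < N, |c i| ≤ 1 := by
    intro i hi
    rw [← sq_le_one_iff_abs_le_one, ← hc1]
    exact Finset.single_le_sum (f := fun j => c j ^ 2) (fun j _ => sq_nonneg _) (Finset.mem_range.2 hi)
  set x : ℕ → ℝ := fun k => ∑ i ∈ Finset.range N, c' i * Z k (s i) with hx
  -- the small terms
  have hsmall : ∀ k < K, (∀ i < N, |Z k (s i)| ≤ Q) → |x k| ≤ M₂ := by
    intro k hk hQk
    have h1 : |∑ i ∈ Finset.range N, c i * Z k (s i)| ≤ N * M₁ := by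
      have e1 : ∑ i ∈ Finset.range N, c i * Z k (s i) =
          ∑ i ∈ Finset.range N, c i * (Z k (s i) - ∑ l, α i l * g l k) := by
        have e2 : ∑ i ∈ Finset.range N, c i * ∑ l, α i l * g l k = 0 := by
          simp only [Finset.mul_sum]
          rw [Finset.sum_comm]
          refine Finset.sum_eq_zero fun l _ => ?_
          have e3 : ∀ i ∈ Finset.range N, c i * (α i l * g l k) = (c i * α i l) * g l k := fun i _ => by ring
          rw [Finset.sum_congr rfl e3, ← Finset.sum_mul, hc2, zero_mul]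
        simp only [mul_sub, Finset.sum_sub_distrib, e2, sub_zero]
      rw [e1]
      refine (Finset.abs_sum_le_sum_abs _ _).trans ?_
      calc _ ≤ ∑ i ∈ Finset.range N, M₁ := by
            refine Finset.sum_le_sum fun i hi => ?_
            rw [abs_mul]
            have h2 := hα i (Finset.mem_range.1 hi) k hk
            calc _ ≤ 1 * M₁ := mul_le_mul (hcle i (Finset.mem_range.1 hi)) h2 (abs_nonneg _) zero_le_one
              _ = M₁ := one_mul _
        _ = N * M₁ := by rw [Finset.sum_const, Finset.card_range, nsmul_eq_mul]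
    have h3 : |x k - ∑ i ∈ Finset.range N, c i * Z k (s i)| ≤ 1 := by
      rw [hx, ← Finset.sum_sub_distrib]
      refine (Finset.abs_sum_le_sum_abs _ _).trans ?_
      calc _ ≤ ∑ i ∈ Finset.range N, μ * Q := by
            refine Finset.sum_le_sum fun i hi => ?_
            rw [← sub_mul, abs_mul]
            have h4 := hcc' i (Finset.mem_range.1 hi)
            rw [abs_sub_comm] at h4
            exact mul_le_mul h4 (hQk i (Finset.mem_range.1 hi)) (abs_nonneg _) hμ0.le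
        _ = 1 := by
            rw [Finset.sum_const, Finset.card_range, nsmul_eq_mul, hμ]
            field_simp
    have h5 : x k = (x k - ∑ i ∈ Finset.range N, c i * Z k (s i)) + ∑ i ∈ Finset.range N, c i * Z k (s i) := by
      ring
    rw [h5, hM₂]
    exact (abs_add_le _ _).trans (by linarith)
  have hcard : (((Finset.range K).filter fun k => M₂ < |x k|).card : ℝ) ≤ θ₀ * K := by
    have h1 : ((Finset.range K).filter fun k => M₂ < |x k|) ⊆
        (Finset.range N).biUnion fun i => (Finset.range K).filter fun k => Q < |Z k (s i)| := by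
      intro k hk
      obtain ⟨h2, h3⟩ := Finset.mem_filter.1 hk
      rw [Finset.mem_biUnion]
      by_contra h4
      push Not at h4
      refine absurd (hsmall k (Finset.mem_range.1 h2) fun i hi => ?_) (not_le.2 h3)
      by_contra h5
      exact h4 i (Finset.mem_range.2 hi) (Finset.mem_filter.2 ⟨h2, not_le.1 h5⟩)
    have h2 := (Finset.card_le_card h1).trans Finset.card_biUnion_le
    calc (((Finset.range K).filter fun k => M₂ < |x k|).card : ℝ) ≤
        ((∑ i ∈ Finset.range N, ((Finset.range K).filter fun k => Q < |Z k (s i)|).card : ℕ) : ℝ) := by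
          exact_mod_cast h2
      _ = ∑ i ∈ Finset.range N, (((Finset.range K).filter fun k => Q < |Z k (s i)|).card : ℝ) := by
          push_cast; rfl
      _ ≤ ∑ i ∈ Finset.range N, θ₀ / N * K :=
          Finset.sum_le_sum fun i hi => (hs1 i (Finset.mem_range.1 hi)).2.1
      _ = θ₀ * K := by
          rw [Finset.sum_const, Finset.card_range, nsmul_eq_mul]
          field_simp
  refine absurd (htrig K hK x fun u hu v hv => ?_) (not_lt.2 hcard)
  have hθmem : (fun i => ((u : ℝ) - v) * ξ * c' i) ∈ Θ :=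
    Finset.mem_image.2 ⟨((u, v), c'), Finset.mem_product.2 ⟨Finset.mem_product.2 ⟨hu, hv⟩, hc'S⟩, rfl⟩
  rcases hs2 _ hθmem with h1 | h1
  swap
  · omega
  have e1 : ∀ k, ∏ i ∈ Finset.range N, cexp (I * ((((u : ℝ) - v) * ξ * c' i * Z k (s i) : ℝ) : ℂ)) =
      cexp (I * ((((u : ℝ) - v) * ξ * x k : ℝ) : ℂ)) := by
    intro k
    rw [← Complex.exp_sum]
    congr 1
    rw [← Finset.mul_sum, hx]
    congr 1
    rw [← Complex.ofReal_sum]
    congr 1
    rw [Finset.mul_sum]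
    refine Finset.sum_congr rfl fun i _ => ?_
    ring
  have e2 : ∏ i ∈ Finset.range N, (ph (((u : ℝ) - v) * ξ * c' i) : ℂ) = (ph (((u : ℝ) - v) * ξ) : ℂ) := by
    rw [← Complex.ofReal_prod]
    congr 1
    unfold ph
    rw [← Real.exp_sum]
    congr 1
    have e3 : ∀ i ∈ Finset.range N, -((((u : ℝ) - v) * ξ * c' i) ^ 2) / 2 =
        (-((((u : ℝ) - v) * ξ) ^ 2) / 2) * c' i ^ 2 := fun i _ => by ring
    rw [Finset.sum_congr rfl e3, ← Finset.mul_sum, hc'1, mul_one]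
  simp only [e1, e2] at h1
  refine h1.trans (le_of_eq ?_)
  field_simp

end Pool.Agent.R846.VS
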