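import Pool.Agent.R321.QA8

/-! # Weighted averages of characters over equidistant points -/

set_option autoImplicit false

namespace Pool.Agent.R846.VS

open Filter Topology MeasureTheory Complex
open Pool.Agent.Y743.CL (Zv Zv_meas)
open Pool.Agent.R321.QA

variable {lam C : ℝ} {a T : ℕ → ℝ}

/-- the value of the characteristic function of the normal law -/
noncomputable def ph (ξ : ℝ) : ℝ := Real.exp (-(ξ ^ 2) / 2)

lemma ph_pos (ξ : ℝ) : 0 < ph ξ := Real.exp_pos _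

lemma ph_le (ξ : ℝ) : ph ξ ≤ 1 := by
  unfold ph
  rw [Real.exp_le_one_iff]
  nlinarith [sq_nonneg ξ]

lemma ph_sq (ξ : ℝ) : ph ξ ^ 2 = Real.exp (-(ξ ^ 2)) := by
  unfold ph
  rw [← Real.exp_nat_mul]
  congr 1
  push_cast
  ring

/-- the centred characters -/
noncomputable def Gk (K : ℕ) (ξ a T m : ℝ) (k : ℕ) (t : ℝ) : ℂ := Fk K ξ a T m k t - (ph ξ : ℂ)

lemma Gk_meas (K : ℕ) (ξ a T m : ℝ) (k : ℕ) : Measurable (Gk K ξ a T m k) :=
  (Fk_meas K ξ a T m k).sub measurable_const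

lemma Gk_norm (K : ℕ) (ξ a T m : ℝ) (k : ℕ) (t : ℝ) : ‖Gk K ξ a T m k t‖ ≤ 2 := by
  unfold Gk
  refine (norm_sub_le _ _).trans ?_
  have h1 : ‖Fk K ξ a T m k t‖ = 1 := exp_norm _
  have h2 : ‖(ph ξ : ℂ)‖ ≤ 1 := by
    rw [Complex.norm_real, Real.norm_eq_abs, abs_of_pos (ph_pos ξ)]
    exact ph_le ξ
  rw [h1]
  linarith

lemma one_lim (h : SD lam C a T) {η : ℝ} (hη : 0 < η) (m : ℕ → ℝ) (hm1 : ∀ j, η * a j ≤ m j)
    (hm2 : ∀ j, m j ≤ a j / 2) {K : ℕ} (hK : 1 ≤ K) (ξ : ℝ) (k : ℕ) (hk : k < K) :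
    Tendsto (fun j => ((1 / T j : ℝ) : ℂ) * ∫ t in (T j)..(2 * T j), Fk K ξ (a j) (T j) (m j) k t)
    atTop (𝓝 (ph ξ : ℂ)) := by
  have h1 := limA h hη m hm1 hm2 hK ξ k hk
  unfold ph
  rw [Complex.ofReal_exp]
  exact h1

lemma conj_int (K : ℕ) (ξ a T m : ℝ) (k : ℕ) (hT : T ≤ 2 * T) :
    (starRingEnd ℂ) (((1 / T : ℝ) : ℂ) * ∫ t in T..(2 * T), Fk K ξ a T m k t) =
    ((1 / T : ℝ) : ℂ) * ∫ t in T..(2 * T), (starRingEnd ℂ) (Fk K ξ a T m k t) := by
  rw [map_mul, Complex.conj_ofReal]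
  congr 1
  rw [intervalIntegral.integral_of_le hT, intervalIntegral.integral_of_le hT, ← integral_conj]

lemma one_lim' (h : SD lam C a T) {η : ℝ} (hη : 0 < η) (m : ℕ → ℝ) (hm1 : ∀ j, η * a j ≤ m j)
    (hm2 : ∀ j, m j ≤ a j / 2) {K : ℕ} (hK : 1 ≤ K) (ξ : ℝ) (k : ℕ) (hk : k < K) :
    Tendsto (fun j => ((1 / T j : ℝ) : ℂ) * ∫ t in (T j)..(2 * T j),
      (starRingEnd ℂ) (Fk K ξ (a j) (T j) (m j) k t)) atTop (𝓝 (ph ξ : ℂ)) := by
  have h2 := (Complex.continuous_conj.tendsto _).comp (one_lim h hη m hm1 hm2 hK ξ k hk)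
  rw [Complex.conj_ofReal] at h2
  refine h2.congr fun j => ?_
  simp only [Function.comp]
  exact conj_int _ _ _ _ _ _ (by linarith [h.T10 j])

lemma two_lim (h : SD lam C a T) {η : ℝ} (hη : 0 < η) (m : ℕ → ℝ) (hm1 : ∀ j, η * a j ≤ m j)
    (hm2 : ∀ j, m j ≤ a j / 2) {K : ℕ} (hK : 1 ≤ K) (ξ : ℝ) (k l : ℕ) (hk : k < K) (hl : l < K) :
    Tendsto (fun j => ((1 / T j : ℝ) : ℂ) * ∫ t in (T j)..(2 * T j), Fk K ξ (a j) (T j) (m j) k t *
      (starRingEnd ℂ) (Fk K ξ (a j) (T j) (m j) l t)) atTop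
      (𝓝 (if k = l then 1 else ((ph ξ ^ 2 : ℝ) : ℂ))) := by
  have e0 : cexp ((-(ξ ^ 2) : ℝ) : ℂ) = ((ph ξ ^ 2 : ℝ) : ℂ) := by rw [ph_sq, Complex.ofReal_exp]
  rcases lt_trichotomy k l with hkl | hkl | hkl
  · rw [if_neg (by omega), ← e0]
    exact limB h hη m hm1 hm2 hK ξ k l hkl hl
  · rw [if_pos hkl]
    subst hkl
    refine tendsto_const_nhds.congr fun j => ?_
    have hTj : T j ≠ 0 := by have := h.T10 j; linarith
    have e1 : ∫ t in (T j)..(2 * T j), Fk K ξ (a j) (T j) (m j) k t *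
        (starRingEnd ℂ) (Fk K ξ (a j) (T j) (m j) k t) = ∫ t in (T j)..(2 * T j), (1 : ℂ) := by
      refine intervalIntegral.integral_congr fun t _ => ?_
      rw [Fk_mul, sub_self, mul_zero]
      simp
    rw [e1, intervalIntegral.integral_const]
    have e2 : 2 * T j - T j = T j := by ring
    rw [e2, Complex.real_smul, mul_one, ← Complex.ofReal_mul, one_div, inv_mul_cancel₀ hTj]
    simp
  · rw [if_neg (by omega), ← e0]
    have h1 := (limB h hη m hm1 hm2 hK ξ l k hkl hk)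
    have h2 := (Complex.continuous_conj.tendsto _).comp h1
    have e3 : (starRingEnd ℂ) (cexp ((-(ξ ^ 2) : ℝ) : ℂ)) = cexp ((-(ξ ^ 2) : ℝ) : ℂ) := by
      rw [e0, Complex.conj_ofReal]
    rw [e3] at h2
    refine h2.congr fun j => ?_
    simp only [Function.comp]
    rw [map_mul, Complex.conj_ofReal]
    congr 1
    rw [intervalIntegral.integral_of_le (by linarith [h.T10 j]),
      intervalIntegral.integral_of_le (by linarith [h.T10 j]), ← integral_conj]
    refine integral_congr_ae (Eventually.of_forall fun t => ?_)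
    simp only
    rw [map_mul, Complex.conj_conj, mul_comm]

lemma Gk_pair (h : SD lam C a T) {η : ℝ} (hη : 0 < η) (m : ℕ → ℝ) (hm1 : ∀ j, η * a j ≤ m j)
    (hm2 : ∀ j, m j ≤ a j / 2) {K : ℕ} (hK : 1 ≤ K) (ξ : ℝ) (k l : ℕ) (hk : k < K) (hl : l < K) :
    Tendsto (fun j => ((1 / T j : ℝ) : ℂ) * ∫ t in (T j)..(2 * T j), Gk K ξ (a j) (T j) (m j) k t *
      (starRingEnd ℂ) (Gk K ξ (a j) (T j) (m j) l t)) atTop
      (𝓝 (if k = l then ((1 - ph ξ ^ 2 : ℝ) : ℂ) else 0)) := by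
  have h1 := two_lim h hη m hm1 hm2 hK ξ k l hk hl
  have h2 := one_lim h hη m hm1 hm2 hK ξ k hk
  have h3 := one_lim' h hη m hm1 hm2 hK ξ l hl
  have h4 := (((h1.sub (h2.const_mul (ph ξ : ℂ))).sub (h3.const_mul (ph ξ : ℂ))).add
    (tendsto_const_nhds (x := ((ph ξ : ℂ)) ^ 2)))
  have e1 : (if k = l then 1 else ((ph ξ ^ 2 : ℝ) : ℂ)) - (ph ξ : ℂ) * (ph ξ : ℂ) -
      (ph ξ : ℂ) * (ph ξ : ℂ) + ((ph ξ : ℂ)) ^ 2 = (if k = l then ((1 - ph ξ ^ 2 : ℝ) : ℂ) else 0) := by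
    split_ifs
    · push_cast; ring
    · push_cast; ring
  rw [e1] at h4
  refine h4.congr fun j => ?_
  have hTj : T j ≠ 0 := by have := h.T10 j; linarith
  have iF : ∀ k, IntervalIntegrable (Fk K ξ (a j) (T j) (m j) k) volume (T j) (2 * T j) := fun k =>
    bd_int (Fk_meas _ _ _ _ _ _) (fun t => (exp_norm _).le) _ _
  have iF' : ∀ k, IntervalIntegrable (fun t => (starRingEnd ℂ) (Fk K ξ (a j) (T j) (m j) k t)) volume
      (T j) (2 * T j) := fun k =>
    bd_int (Complex.continuous_conj.measurable.comp (Fk_meas _ _ _ _ _ _))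
      (fun t => by
        show ‖(starRingEnd ℂ) (Fk K ξ (a j) (T j) (m j) k t)‖ ≤ 1
        rw [RCLike.norm_conj]; exact (exp_norm _).le) _ _
  have iFF : IntervalIntegrable (fun t => Fk K ξ (a j) (T j) (m j) k t *
      (starRingEnd ℂ) (Fk K ξ (a j) (T j) (m j) l t)) volume (T j) (2 * T j) :=
    bd_int ((Fk_meas _ _ _ _ _ _).mul (Complex.continuous_conj.measurable.comp (Fk_meas _ _ _ _ _ _)))
      (fun t => by
        show ‖Fk K ξ (a j) (T j) (m j) k t * (starRingEnd ℂ) (Fk K ξ (a j) (T j) (m j) l t)‖ ≤ 1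
        rw [Fk_mul]; exact (exp_norm _).le) _ _
  have e2 : ∀ t, Gk K ξ (a j) (T j) (m j) k t * (starRingEnd ℂ) (Gk K ξ (a j) (T j) (m j) l t) =
      Fk K ξ (a j) (T j) (m j) k t * (starRingEnd ℂ) (Fk K ξ (a j) (T j) (m j) l t) -
      (ph ξ : ℂ) * Fk K ξ (a j) (T j) (m j) k t -
      (ph ξ : ℂ) * (starRingEnd ℂ) (Fk K ξ (a j) (T j) (m j) l t) + ((ph ξ : ℂ)) ^ 2 := by
    intro t
    unfold Gk
    rw [map_sub, Complex.conj_ofReal]
    ring
  rw [intervalIntegral.integral_congr (fun t _ => e2 t),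
    intervalIntegral.integral_add (((iFF.sub ((iF k).const_mul _))).sub ((iF' l).const_mul _))
      intervalIntegrable_const,
    intervalIntegral.integral_sub (iFF.sub ((iF k).const_mul _)) ((iF' l).const_mul _),
    intervalIntegral.integral_sub iFF ((iF k).const_mul _),
    intervalIntegral.integral_const_mul, intervalIntegral.integral_const_mul,
    intervalIntegral.integral_const]
  have e6 : 2 * T j - T j = T j := by ring
  rw [e6, Complex.real_smul]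
  have hTc : ((T j : ℝ) : ℂ) ≠ 0 := by exact_mod_cast hTj
  push_cast
  field_simp

/-- **the mean square of weighted averages**, along a sequence -/
theorem kptw (h : SD lam C a T) {η : ℝ} (hη : 0 < η) (m : ℕ → ℝ) (hm1 : ∀ j, η * a j ≤ m j)
    (hm2 : ∀ j, m j ≤ a j / 2) {K : ℕ} (hK : 1 ≤ K) (ξ : ℝ) {ρ : ℝ} (hρ : 0 < ρ) :
    ∀ᶠ j in atTop, ∀ w : ℕ → ℂ, (∀ k, ‖w k‖ ≤ 1) → ∫ t in (T j)..(2 * T j),
      ‖(1 / K : ℂ) * ∑ k ∈ Finset.range K, w k * Gk K ξ (a j) (T j) (m j) k t‖ ^ 2 ≤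
      (1 / K + ρ) * T j := by
  have hK0 : (0 : ℝ) < K := by exact_mod_cast hK
  have hKc : (K : ℂ) ≠ 0 := by exact_mod_cast hK0.ne'
  have hev : ∀ᶠ j in atTop, ∀ k ∈ Finset.range K, ∀ l ∈ Finset.range K,
      ‖((1 / T j : ℝ) : ℂ) * ∫ t in (T j)..(2 * T j), Gk K ξ (a j) (T j) (m j) k t *
      (starRingEnd ℂ) (Gk K ξ (a j) (T j) (m j) l t)‖ ≤ (if k = l then 1 else 0) + ρ := by
    rw [Finset.eventually_all]
    intro k hk
    rw [Finset.eventually_all]
    intro l hl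
    rw [Finset.mem_range] at hk hl
    have h1 := (Gk_pair h hη m hm1 hm2 hK ξ k l hk hl).norm
    have h2 : ‖(if k = l then ((1 - ph ξ ^ 2 : ℝ) : ℂ) else 0)‖ < (if k = l then (1 : ℝ) else 0) + ρ := by
      split_ifs
      · rw [Complex.norm_real, Real.norm_eq_abs, abs_of_nonneg]
        · have := sq_nonneg (ph ξ); linarith
        · have h3 := ph_le ξ
          have h4 := (ph_pos ξ).le
          nlinarith
      · rw [norm_zero]; linarith
    filter_upwards [h1.eventually_lt_const h2] with j hj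
    exact hj.le
  filter_upwards [hev] with j hj w hw
  have hTj : 0 < T j := by linarith [h.T10 j]
  have iGG : ∀ k l, IntervalIntegrable (fun t => Gk K ξ (a j) (T j) (m j) k t *
      (starRingEnd ℂ) (Gk K ξ (a j) (T j) (m j) l t)) volume (T j) (2 * T j) := fun k l =>
    bd_int (M := 4) ((Gk_meas _ _ _ _ _ _).mul (Complex.continuous_conj.measurable.comp (Gk_meas _ _ _ _ _ _)))
      (fun t => by
        show ‖Gk K ξ (a j) (T j) (m j) k t * (starRingEnd ℂ) (Gk K ξ (a j) (T j) (m j) l t)‖ ≤ 4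
        rw [norm_mul, RCLike.norm_conj]
        have h1 := Gk_norm K ξ (a j) (T j) (m j) k t
        have h2 := Gk_norm K ξ (a j) (T j) (m j) l t
        calc _ ≤ (2 : ℝ) * 2 := mul_le_mul h1 h2 (norm_nonneg _) (by norm_num)
          _ = 4 := by norm_num) _ _
  have e1 : ∀ t, ((‖(1 / K : ℂ) * ∑ k ∈ Finset.range K, w k * Gk K ξ (a j) (T j) (m j) k t‖ ^ 2 : ℝ) : ℂ) =
      ∑ k ∈ Finset.range K, ∑ l ∈ Finset.range K, (1 / (K : ℂ) ^ 2 * (w k * (starRingEnd ℂ) (w l))) *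
        (Gk K ξ (a j) (T j) (m j) k t * (starRingEnd ℂ) (Gk K ξ (a j) (T j) (m j) l t)) := by
    intro t
    set S := ∑ k ∈ Finset.range K, w k * Gk K ξ (a j) (T j) (m j) k t with hS
    have e2 : ((‖(1 / K : ℂ) * S‖ ^ 2 : ℝ) : ℂ) = ((1 / K : ℂ) * S) * (starRingEnd ℂ) ((1 / K : ℂ) * S) := by
      rw [Complex.mul_conj, Complex.normSq_eq_norm_sq]
    rw [e2, map_mul, map_div₀, map_one, Complex.conj_natCast]
    have e3 : (1 / K : ℂ) * S * (1 / K * (starRingEnd ℂ) S) = 1 / (K : ℂ) ^ 2 * (S * (starRingEnd ℂ) S) := by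
      field_simp
    rw [e3, hS, map_sum, Finset.sum_mul_sum, Finset.mul_sum]
    refine Finset.sum_congr rfl fun k _ => ?_
    rw [Finset.mul_sum]
    refine Finset.sum_congr rfl fun l _ => ?_
    rw [map_mul]
    ring
  have key : ((∫ t in (T j)..(2 * T j),
      ‖(1 / K : ℂ) * ∑ k ∈ Finset.range K, w k * Gk K ξ (a j) (T j) (m j) k t‖ ^ 2 : ℝ) : ℂ) =
      ∑ k ∈ Finset.range K, ∑ l ∈ Finset.range K, (1 / (K : ℂ) ^ 2 * (w k * (starRingEnd ℂ) (w l))) *
        ∫ t in (T j)..(2 * T j), (Gk K ξ (a j) (T j) (m j) k t *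
          (starRingEnd ℂ) (Gk K ξ (a j) (T j) (m j) l t)) := by
    rw [← intervalIntegral.integral_ofReal, intervalIntegral.integral_congr (fun t _ => e1 t),
      intervalIntegral.integral_finsetSum]
    · refine Finset.sum_congr rfl fun k _ => ?_
      rw [intervalIntegral.integral_finsetSum]
      · exact Finset.sum_congr rfl fun l _ => intervalIntegral.integral_const_mul _ _
      · exact fun l _ => (iGG k l).const_mul _
    · intro k _
      have := IntervalIntegrable.sum (Finset.range K) (f := fun l t =>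
        (1 / (K : ℂ) ^ 2 * (w k * (starRingEnd ℂ) (w l))) * (Gk K ξ (a j) (T j) (m j) k t *
          (starRingEnd ℂ) (Gk K ξ (a j) (T j) (m j) l t)))
        (μ := volume) (a := T j) (b := 2 * T j) (fun l _ => (iGG k l).const_mul _)
      refine this.congr (fun t _ => ?_)
      simp [Finset.sum_apply]
  have hnn : 0 ≤ ∫ t in (T j)..(2 * T j),
      ‖(1 / K : ℂ) * ∑ k ∈ Finset.range K, w k * Gk K ξ (a j) (T j) (m j) k t‖ ^ 2 :=
    intervalIntegral.integral_nonneg (by linarith) fun t _ => sq_nonneg _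
  have e4 : ∫ t in (T j)..(2 * T j),
      ‖(1 / K : ℂ) * ∑ k ∈ Finset.range K, w k * Gk K ξ (a j) (T j) (m j) k t‖ ^ 2 =
      ‖((∫ t in (T j)..(2 * T j),
      ‖(1 / K : ℂ) * ∑ k ∈ Finset.range K, w k * Gk K ξ (a j) (T j) (m j) k t‖ ^ 2 : ℝ) : ℂ)‖ := by
    rw [Complex.norm_real, Real.norm_of_nonneg hnn]
  rw [e4, key]
  have h5 : ∀ k ∈ Finset.range K, ∀ l ∈ Finset.range K,
      ‖(1 / (K : ℂ) ^ 2 * (w k * (starRingEnd ℂ) (w l))) *
        ∫ t in (T j)..(2 * T j), (Gk K ξ (a j) (T j) (m j) k t *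
          (starRingEnd ℂ) (Gk K ξ (a j) (T j) (m j) l t))‖ ≤
      1 / (K : ℝ) ^ 2 * (((if k = l then 1 else 0) + ρ) * T j) := by
    intro k hk l hl
    have h6 := hj k hk l hl
    rw [norm_mul, Complex.norm_real, Real.norm_eq_abs, abs_of_pos (by positivity), div_mul_eq_mul_div,
      one_mul, div_le_iff₀ hTj] at h6
    rw [norm_mul, norm_mul, norm_mul, RCLike.norm_conj, norm_div, norm_one, norm_pow,
      Complex.norm_natCast]
    have h7 : ‖w k‖ * ‖w l‖ ≤ 1 := by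
      calc ‖w k‖ * ‖w l‖ ≤ 1 * 1 := mul_le_mul (hw k) (hw l) (norm_nonneg _) zero_le_one
        _ = 1 := one_mul 1
    have h8 : 0 ≤ ‖w k‖ * ‖w l‖ := by positivity
    rw [mul_assoc]
    refine mul_le_mul_of_nonneg_left ?_ (by positivity)
    calc _ ≤ 1 * (((if k = l then 1 else 0) + ρ) * T j) := mul_le_mul h7 h6 (norm_nonneg _) zero_le_one
      _ = _ := one_mul _
  calc _ ≤ ∑ k ∈ Finset.range K, ∑ l ∈ Finset.range K,
      1 / (K : ℝ) ^ 2 * (((if k = l then 1 else 0) + ρ) * T j) :=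
        (norm_sum_le _ _).trans (Finset.sum_le_sum fun k hk =>
          (norm_sum_le _ _).trans (Finset.sum_le_sum fun l hl => h5 k hk l hl))
    _ = (1 / K + ρ) * T j := by
      have h9 : ∀ k ∈ Finset.range K, ∑ l ∈ Finset.range K,
          1 / (K : ℝ) ^ 2 * (((if k = l then 1 else 0) + ρ) * T j) =
          1 / (K : ℝ) ^ 2 * ((1 + K * ρ) * T j) := by
        intro k hk
        rw [← Finset.mul_sum, ← Finset.sum_mul, Finset.sum_add_distrib, Finset.sum_ite_eq, if_pos hk,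
          Finset.sum_const, Finset.card_range, nsmul_eq_mul]
      rw [Finset.sum_congr rfl h9, Finset.sum_const, Finset.card_range, nsmul_eq_mul]
      field_simp

end Pool.Agent.R846.VS
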