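import Pool.Agent.R846.VS.A

/-! # Large values of a sequence with the normal law -/

set_option autoImplicit false

namespace Pool.Agent.R846.VS

open Filter Topology MeasureTheory Complex ProbabilityTheory

/-- `(1 - cos y) ^ r` as a trigonometric polynomial -/
lemma trig_poly (r : ℕ) (y : ℝ) : (((1 - Real.cos y) ^ r : ℝ) : ℂ) = (1 / 2 : ℂ) ^ r *
    ∑ u ∈ Finset.range (r + 1), ∑ v ∈ Finset.range (r + 1),
      ((-1 : ℂ) ^ u * (r.choose u : ℂ)) * ((-1 : ℂ) ^ v * (r.choose v : ℂ)) *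
        cexp (I * ((((u : ℝ) - v) * y : ℝ) : ℂ)) := by
  have h1 : ((1 - Real.cos y : ℝ) : ℂ) = (1 / 2 : ℂ) * ((1 - cexp (I * y)) * (1 - cexp (-(I * y)))) := by
    have h2 : cexp (I * y) * cexp (-(I * y)) = 1 := by rw [← Complex.exp_add]; simp
    have h3 : Complex.cos y = (cexp (I * y) + cexp (-(I * y))) / 2 := by
      unfold Complex.cos
      congr 2
      · ring_nf
      · ring_nf
    push_cast
    rw [h3]
    linear_combination (-(1:ℂ) / 2) * h2
  have h4 : ∀ z : ℂ, (1 - z) ^ r = ∑ u ∈ Finset.range (r + 1), ((-1 : ℂ) ^ u * (r.choose u : ℂ)) * z ^ u := by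
    intro z
    have := add_pow (-z) 1 r
    rw [show (1 - z) = -z + 1 by ring, this]
    refine Finset.sum_congr rfl fun u _ => ?_
    rw [one_pow, neg_pow]
    ring
  rw [Complex.ofReal_pow, h1, mul_pow, mul_pow, h4, h4, Finset.sum_mul_sum]
  congr 1
  refine Finset.sum_congr rfl fun u _ => Finset.sum_congr rfl fun v _ => ?_
  have h5 : cexp (I * ((((u : ℝ) - v) * y : ℝ) : ℂ)) = cexp (I * y) ^ u * cexp (-(I * y)) ^ v := by
    rw [← Complex.exp_nat_mul, ← Complex.exp_nat_mul, ← Complex.exp_add]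
    congr 1
    push_cast
    ring
  rw [h5]
  ring

/-- the standard normal law -/
noncomputable abbrev gn : Measure ℝ := gaussianReal 0 1

lemma gn_char (ξ : ℝ) : ∫ x, cexp (I * ((ξ * x : ℝ) : ℂ)) ∂gn = (ph ξ : ℂ) := by
  have h1 := charFun_gaussianReal (μ := 0) (v := 1) ξ
  rw [charFun_apply_real] at h1
  unfold ph
  rw [Complex.ofReal_exp]
  have e1 : ∀ x : ℝ, cexp (I * ((ξ * x : ℝ) : ℂ)) = cexp (ξ * x * I) := by
    intro x
    congr 1
    push_cast
    ring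
  simp only [e1]
  rw [h1]
  congr 1
  push_cast
  ring

lemma gn_pos {u v : ℝ} (h : u < v) : 0 < gn.real (Set.Icc u v) := by
  rw [Measure.real, ENNReal.toReal_pos_iff]
  refine ⟨?_, measure_lt_top _ _⟩
  rw [pos_iff_ne_zero]
  intro h0
  have h1 := (gaussianReal_absolutelyContinuous' 0 (v := 1) one_ne_zero) h0
  rw [Real.volume_Icc, ENNReal.ofReal_eq_zero] at h1
  linarith

/-- **a sequence of numbers with the normal law has large terms** -/
theorem trig (M₂ : ℝ) (hM : 0 < M₂) : ∃ (r : ℕ) (ξ θ₀ ε₀ : ℝ), 0 < θ₀ ∧ 0 < ε₀ ∧ ∀ K : ℕ, 1 ≤ K →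
    ∀ x : ℕ → ℝ, (∀ u ∈ Finset.range (r + 1), ∀ v ∈ Finset.range (r + 1),
      ‖(1 / K : ℂ) * ∑ k ∈ Finset.range K, cexp (I * ((((u : ℝ) - v) * ξ * x k : ℝ) : ℂ)) -
        (ph (((u : ℝ) - v) * ξ) : ℂ)‖ ≤ ε₀) →
    θ₀ * K < (((Finset.range K).filter fun k => M₂ < |x k|).card : ℝ) := by
  have hpi := Real.pi_pos
  obtain ⟨ξ, hξ⟩ : ∃ ξ : ℝ, ξ = Real.pi / (3 * M₂) := ⟨_, rfl⟩
  have hξ0 : 0 < ξ := by rw [hξ]; positivity
  have hξM : ξ * M₂ = Real.pi / 3 := by rw [hξ]; field_simp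
  obtain ⟨p, hp⟩ : ∃ p : ℝ, p = gn.real (Set.Icc (Real.pi / (2 * ξ)) (Real.pi / ξ)) := ⟨_, rfl⟩
  have hp0 : 0 < p := by
    rw [hp]
    apply gn_pos
    rw [div_lt_div_iff₀ (by positivity) hξ0]
    nlinarith [mul_pos hpi hξ0]
  obtain ⟨r, hr⟩ := exists_pow_lt_of_lt_one (show 0 < p / 4 by positivity) (show (1 / 2 : ℝ) < 1 by norm_num)
  refine ⟨r, ξ, p / (4 * 2 ^ r), p / (4 * 2 ^ r), by positivity, by positivity, fun K hK x hx => ?_⟩
  have hK0 : (0 : ℝ) < K := by exact_mod_cast hK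
  have hKc : (K : ℂ) ≠ 0 := by exact_mod_cast hK0.ne'
  by_contra hcon
  push Not at hcon
  -- the normal law
  have hG1 : p ≤ ∫ y, (1 - Real.cos (ξ * y)) ^ r ∂gn := by
    have hi : Integrable (fun y => (1 - Real.cos (ξ * y)) ^ r) gn := by
      refine Integrable.of_bound (C := 2 ^ r) (by fun_prop) (Eventually.of_forall fun y => ?_)
      have h1 := Real.neg_one_le_cos (ξ * y)
      have h2 := Real.cos_le_one (ξ * y)
      rw [Real.norm_of_nonneg (pow_nonneg (by linarith) _)]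
      exact pow_le_pow_left₀ (by linarith) (by linarith) _
    have hind : Integrable ((Set.Icc (Real.pi / (2 * ξ)) (Real.pi / ξ)).indicator fun _ : ℝ => (1 : ℝ)) gn :=
      (integrable_const (1 : ℝ)).indicator measurableSet_Icc
    have h3 : ∫ y, (Set.Icc (Real.pi / (2 * ξ)) (Real.pi / ξ)).indicator (fun _ : ℝ => (1 : ℝ)) y ∂gn = p := by
      rw [integral_indicator measurableSet_Icc, setIntegral_const, smul_eq_mul, mul_one, hp]
    rw [← h3]
    refine integral_mono hind hi fun y => ?_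
    by_cases hy : y ∈ Set.Icc (Real.pi / (2 * ξ)) (Real.pi / ξ)
    · rw [Set.indicator_of_mem hy]
      obtain ⟨h4, h5⟩ := hy
      rw [div_le_iff₀ (by positivity)] at h4
      rw [le_div_iff₀ hξ0] at h5
      have h6 : Real.cos (ξ * y) ≤ 0 :=
        Real.cos_nonpos_of_pi_div_two_le_of_le (by linarith) (by linarith)
      exact one_le_pow₀ (by linarith)
    · rw [Set.indicator_of_notMem hy]
      exact pow_nonneg (by linarith [Real.cos_le_one (ξ * y)]) _
  have hG2 : ((∫ y, (1 - Real.cos (ξ * y)) ^ r ∂gn : ℝ) : ℂ) = (1 / 2 : ℂ) ^ r *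
      ∑ u ∈ Finset.range (r + 1), ∑ v ∈ Finset.range (r + 1),
      ((-1 : ℂ) ^ u * (r.choose u : ℂ)) * ((-1 : ℂ) ^ v * (r.choose v : ℂ)) *
        (ph (((u : ℝ) - v) * ξ) : ℂ) := by
    have e0 : ((∫ y, (1 - Real.cos (ξ * y)) ^ r ∂gn : ℝ) : ℂ) =
        ∫ y, (((1 - Real.cos (ξ * y)) ^ r : ℝ) : ℂ) ∂gn := (integral_ofReal (𝕜 := ℂ)).symm
    rw [e0]
    have e1 : ∀ y : ℝ, (((1 - Real.cos (ξ * y)) ^ r : ℝ) : ℂ) = (1 / 2 : ℂ) ^ r *
      ∑ u ∈ Finset.range (r + 1), ∑ v ∈ Finset.range (r + 1),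
      ((-1 : ℂ) ^ u * (r.choose u : ℂ)) * ((-1 : ℂ) ^ v * (r.choose v : ℂ)) *
        cexp (I * ((((u : ℝ) - v) * ξ * y : ℝ) : ℂ)) := by
      intro y
      rw [trig_poly]
      simp only [mul_assoc]
    simp only [e1]
    have hi : ∀ ζ : ℝ, Integrable (fun y : ℝ => cexp (I * ((ζ * y : ℝ) : ℂ))) gn := by
      intro ζ
      refine Integrable.of_bound (C := 1) (by fun_prop) (Eventually.of_forall fun y => ?_)
      rw [mul_comm, Complex.norm_exp_ofReal_mul_I]
    rw [integral_const_mul, integral_finsetSum _ fun u _ => integrable_finsetSum _ fun v _ =>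
      (hi _).const_mul _]
    congr 1
    refine Finset.sum_congr rfl fun u _ => ?_
    rw [integral_finsetSum _ fun v _ => (hi _).const_mul _]
    refine Finset.sum_congr rfl fun v _ => ?_
    rw [integral_const_mul, gn_char]
  -- the sequence
  have hE1 : (((1 / K : ℝ) * ∑ k ∈ Finset.range K, (1 - Real.cos (ξ * x k)) ^ r : ℝ) : ℂ) =
      (1 / 2 : ℂ) ^ r * ∑ u ∈ Finset.range (r + 1), ∑ v ∈ Finset.range (r + 1),
      ((-1 : ℂ) ^ u * (r.choose u : ℂ)) * ((-1 : ℂ) ^ v * (r.choose v : ℂ)) *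
        ((1 / K : ℂ) * ∑ k ∈ Finset.range K, cexp (I * ((((u : ℝ) - v) * ξ * x k : ℝ) : ℂ))) := by
    rw [Complex.ofReal_mul, Complex.ofReal_sum]
    simp only [trig_poly]
    rw [← Finset.mul_sum, Finset.sum_comm]
    simp only [Finset.mul_sum]
    refine Finset.sum_congr rfl fun u _ => ?_
    rw [Finset.sum_comm]
    refine Finset.sum_congr rfl fun v _ => ?_
    refine Finset.sum_congr rfl fun k _ => ?_
    push_cast
    simp only [mul_assoc]
    ring
  have hdiff : |(1 / K : ℝ) * ∑ k ∈ Finset.range K, (1 - Real.cos (ξ * x k)) ^ r -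
      ∫ y, (1 - Real.cos (ξ * y)) ^ r ∂gn| ≤ p / 4 := by
    have e1 : |(1 / K : ℝ) * ∑ k ∈ Finset.range K, (1 - Real.cos (ξ * x k)) ^ r -
        ∫ y, (1 - Real.cos (ξ * y)) ^ r ∂gn| =
        ‖(((1 / K : ℝ) * ∑ k ∈ Finset.range K, (1 - Real.cos (ξ * x k)) ^ r : ℝ) : ℂ) -
        ((∫ y, (1 - Real.cos (ξ * y)) ^ r ∂gn : ℝ) : ℂ)‖ := by
      rw [← Complex.ofReal_sub, Complex.norm_real, Real.norm_eq_abs]
    rw [e1, hE1, hG2, ← mul_sub, ← Finset.sum_sub_distrib]
    simp only [← Finset.sum_sub_distrib, ← mul_sub]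
    rw [norm_mul]
    have e2 : ‖(1 / 2 : ℂ) ^ r‖ = (1 / 2 : ℝ) ^ r := by
      rw [norm_pow]; norm_num
    rw [e2]
    have e3 : ∀ u v : ℕ, ‖((-1 : ℂ) ^ u * (r.choose u : ℂ)) * ((-1 : ℂ) ^ v * (r.choose v : ℂ))‖ =
        (r.choose u : ℝ) * (r.choose v : ℝ) := by
      intro u v
      rw [norm_mul, norm_mul, norm_mul, norm_pow, norm_pow, norm_neg, norm_one, one_pow, one_pow,
        Complex.norm_natCast, Complex.norm_natCast, one_mul, one_mul]
    have e4 : ‖∑ u ∈ Finset.range (r + 1), ∑ v ∈ Finset.range (r + 1),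
        ((-1 : ℂ) ^ u * (r.choose u : ℂ)) * ((-1 : ℂ) ^ v * (r.choose v : ℂ)) *
        ((1 / K : ℂ) * ∑ k ∈ Finset.range K, cexp (I * ((((u : ℝ) - v) * ξ * x k : ℝ) : ℂ)) -
          (ph (((u : ℝ) - v) * ξ) : ℂ))‖ ≤
        ∑ u ∈ Finset.range (r + 1), ∑ v ∈ Finset.range (r + 1),
          ((r.choose u : ℝ) * (r.choose v : ℝ)) * (p / (4 * 2 ^ r)) := by
      refine (norm_sum_le _ _).trans (Finset.sum_le_sum fun u hu => ?_)
      refine (norm_sum_le _ _).trans (Finset.sum_le_sum fun v hv => ?_)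
      rw [norm_mul, e3]
      exact mul_le_mul_of_nonneg_left (hx u hu v hv) (by positivity)
    have e5 : ∑ u ∈ Finset.range (r + 1), ∑ v ∈ Finset.range (r + 1),
          ((r.choose u : ℝ) * (r.choose v : ℝ)) * (p / (4 * 2 ^ r)) =
        2 ^ r * 2 ^ r * (p / (4 * 2 ^ r)) := by
      simp only [← Finset.sum_mul, ← Finset.mul_sum]
      have e6 : ∑ u ∈ Finset.range (r + 1), (r.choose u : ℝ) = 2 ^ r := by
        have := Nat.sum_range_choose r
        exact_mod_cast this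
      rw [e6]
    calc (1 / 2 : ℝ) ^ r * _ ≤ (1 / 2 : ℝ) ^ r * (2 ^ r * 2 ^ r * (p / (4 * 2 ^ r))) := by
          rw [← e5]
          exact mul_le_mul_of_nonneg_left e4 (by positivity)
      _ = p / 4 := by
        rw [one_div, inv_pow]
        field_simp
  -- the upper bound
  have hup : (1 / K : ℝ) * ∑ k ∈ Finset.range K, (1 - Real.cos (ξ * x k)) ^ r ≤ p / 4 + p / 4 := by
    have h1 : ∑ k ∈ Finset.range K, (1 - Real.cos (ξ * x k)) ^ r ≤
        ∑ k ∈ Finset.range K, ((1 / 2 : ℝ) ^ r + if M₂ < |x k| then 2 ^ r else 0) := by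
      refine Finset.sum_le_sum fun k _ => ?_
      have h2 := Real.neg_one_le_cos (ξ * x k)
      have h3 := Real.cos_le_one (ξ * x k)
      split_ifs with h4
      · have : (1 - Real.cos (ξ * x k)) ^ r ≤ 2 ^ r := pow_le_pow_left₀ (by linarith) (by linarith) _
        have h5 : (0 : ℝ) ≤ (1 / 2) ^ r := by positivity
        linarith
      · rw [add_zero]
        refine pow_le_pow_left₀ (by linarith) ?_ _
        have h5 : |ξ * x k| ≤ Real.pi / 3 := by
          rw [abs_mul, abs_of_pos hξ0, ← hξM]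
          exact mul_le_mul_of_nonneg_left (not_lt.1 h4) hξ0.le
        have h6 : 1 / 2 ≤ Real.cos (ξ * x k) := by
          rw [← Real.cos_abs, ← Real.cos_pi_div_three]
          exact Real.cos_le_cos_of_nonneg_of_le_pi (abs_nonneg _) (by linarith) h5
        linarith
    rw [Finset.sum_add_distrib, Finset.sum_const, Finset.card_range, nsmul_eq_mul,
      ← Finset.sum_filter, Finset.sum_const, nsmul_eq_mul] at h1
    have h7 : (((Finset.range K).filter fun k => M₂ < |x k|).card : ℝ) * 2 ^ r ≤ p / 4 * K := by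
      calc _ ≤ p / (4 * 2 ^ r) * K * 2 ^ r := mul_le_mul_of_nonneg_right hcon (by positivity)
        _ = p / 4 * K := by field_simp
    have h8 : K * (1 / 2 : ℝ) ^ r ≤ K * (p / 4) := mul_le_mul_of_nonneg_left hr.le hK0.le
    rw [one_div, inv_mul_le_iff₀ hK0]
    linarith
  have h9 := (abs_le.mp hdiff).1
  linarith

end Pool.Agent.R846.VS
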