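import Pool.Agent.R846.VS.C

/-! # The uniform law -/

set_option autoImplicit false

namespace Pool.Agent.R846.VS

open Filter Topology MeasureTheory Complex
open Pool.Agent.Y743.CL (Zv Zv_meas)
open Pool.Agent.R321.QA

/-- Chebyshev's inequality -/
lemma cheb {A B c δ : ℝ} {f : ℝ → ℝ} (hf : Measurable f) (h0 : ∀ t, 0 ≤ f t)
    (hi : IntegrableOn f (Set.Icc A B)) (hc : ∫ t in Set.Icc A B, f t ≤ c) (hδ : 0 < δ) :
    volume {t ∈ Set.Icc A B | δ < f t} ≤ ENNReal.ofReal (c / δ) := by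
  have h1 := mul_meas_ge_le_integral_of_nonneg (μ := volume.restrict (Set.Icc A B))
    (Eventually.of_forall h0) hi δ
  have hm : MeasurableSet {t | δ ≤ f t} := measurableSet_le measurable_const hf
  have h2 : (volume.restrict (Set.Icc A B)).real {t | δ ≤ f t} ≤ c / δ := by
    rw [le_div_iff₀ hδ]
    linarith
  have h3 : (volume.restrict (Set.Icc A B)) {t | δ ≤ f t} ≤ ENNReal.ofReal (c / δ) := by
    rw [← ENNReal.ofReal_toReal (measure_ne_top (volume.restrict (Set.Icc A B)) {t | δ ≤ f t})]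
    exact ENNReal.ofReal_le_ofReal h2
  rw [Measure.restrict_apply hm] at h3
  refine le_trans (measure_mono ?_) h3
  rintro t ⟨h4, h5⟩
  exact ⟨h5.le, h4⟩

/-- **the mean square of weighted averages**, uniform version -/
theorem unifw (B : ℝ) (hB : 1 ≤ B) {η : ℝ} (hη : 0 < η) {K : ℕ} (hK : 1 ≤ K) (ξ : ℝ) {ρ : ℝ}
    (hρ : 0 < ρ) : ∃ R : ℝ, 3 ≤ R ∧ ∀ a T m : ℝ, R ≤ a → 1 ≤ T → a * Real.log a ≤ B * Real.log T →
    η * a ≤ m → m ≤ a / 2 → ∀ w : ℕ → ℂ, (∀ k, ‖w k‖ ≤ 1) → ∫ t in T..(2 * T),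
      ‖(1 / K : ℂ) * ∑ k ∈ Finset.range K, w k * Gk K ξ a T m k t‖ ^ 2 ≤ (1 / K + ρ) * T := by
  obtain ⟨A0, lam, C, hA0, hseq⟩ := sd_mk B hB
  by_contra hcon
  push Not at hcon
  have hch : ∀ j : ℕ, ∃ x : (ℝ × ℝ × ℝ) × (ℕ → ℂ), A0 + j ≤ x.1.1 ∧ 1 ≤ x.1.2.1 ∧
      x.1.1 * Real.log x.1.1 ≤ B * Real.log x.1.2.1 ∧ η * x.1.1 ≤ x.1.2.2 ∧ x.1.2.2 ≤ x.1.1 / 2 ∧
      (∀ k, ‖x.2 k‖ ≤ 1) ∧ (1 / K + ρ) * x.1.2.1 < ∫ t in x.1.2.1..(2 * x.1.2.1),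
      ‖(1 / K : ℂ) * ∑ k ∈ Finset.range K, x.2 k * Gk K ξ x.1.1 x.1.2.1 x.1.2.2 k t‖ ^ 2 := by
    intro j
    obtain ⟨a, T, m, h1, h2, h3, h4, h5, w, h6, h7⟩ := hcon (A0 + j)
      (by have : (0 : ℝ) ≤ j := Nat.cast_nonneg j; linarith)
    exact ⟨((a, T, m), w), h1, h2, h3, h4, h5, h6, h7⟩
  choose x hx using hch
  have hsd := hseq (fun j => (x j).1.1) (fun j => (x j).1.2.1)
    (fun j => by
      have : (0 : ℝ) ≤ j := Nat.cast_nonneg j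
      have := (hx j).1
      linarith) (fun j => (hx j).2.1)
    (tendsto_atTop_mono (fun j => by have := (hx j).1; linarith) tendsto_natCast_atTop_atTop)
    (fun j => (hx j).2.2.1)
  have h := kptw hsd hη (fun j => (x j).1.2.2) (fun j => (hx j).2.2.2.1)
    (fun j => (hx j).2.2.2.2.1) hK ξ hρ
  obtain ⟨j, hj⟩ := h.exists
  exact absurd (hx j).2.2.2.2.2.2 (not_lt.2 (hj _ (hx j).2.2.2.2.2.1))

/-- **the law in measure** -/
theorem law_vol (B : ℝ) (hB : 1 ≤ B) (Ξ : Finset ℝ) {ε σ : ℝ} (hε : 0 < ε) (hσ : 0 < σ) :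
    ∃ K0 : ℕ, ∀ K : ℕ, K0 ≤ K → ∀ η : ℝ, 0 < η → ∃ R : ℝ, 3 ≤ R ∧ ∀ a T m : ℝ, R ≤ a → 1 ≤ T →
    a * Real.log a ≤ B * Real.log T → η * a ≤ m → m ≤ a / 2 → ∀ ξ ∈ Ξ, ∀ w : ℕ → ℂ, (∀ k, ‖w k‖ ≤ 1) →
    volume {t ∈ Set.Icc T (2 * T) | ε < ‖(1 / K : ℂ) * ∑ k ∈ Finset.range K,
      w k * (cexp (I * ((ξ * Zv a T (t + hs (k * m / K) T) : ℝ) : ℂ)) - (ph ξ : ℂ))‖} ≤
      ENNReal.ofReal (σ * T) := by
  obtain ⟨K0, hK0⟩ := exists_nat_gt (2 / (ε ^ 2 * σ))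
  refine ⟨K0 + 1, fun K hK η hη => ?_⟩
  have hK1 : 1 ≤ K := by omega
  have hKr : (0 : ℝ) < K := by exact_mod_cast hK1
  have h2K : 1 / (K : ℝ) + 1 / K ≤ ε ^ 2 * σ := by
    have h1 : 2 / (ε ^ 2 * σ) ≤ K := hK0.le.trans (by exact_mod_cast (by omega : K0 ≤ K))
    rw [div_le_iff₀ (by positivity)] at h1
    rw [← add_div, div_le_iff₀ hKr]
    linarith
  have hch : ∀ ξ : ℝ, ∃ R : ℝ, 3 ≤ R ∧ ∀ a T m : ℝ, R ≤ a → 1 ≤ T → a * Real.log a ≤ B * Real.log T →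
    η * a ≤ m → m ≤ a / 2 → ∀ w : ℕ → ℂ, (∀ k, ‖w k‖ ≤ 1) → ∫ t in T..(2 * T),
      ‖(1 / K : ℂ) * ∑ k ∈ Finset.range K, w k * Gk K ξ a T m k t‖ ^ 2 ≤ (1 / K + 1 / K) * T :=
    fun ξ => unifw B hB hη hK1 ξ (ρ := 1 / K) (by positivity)
  choose R hR1 hR2 using hch
  refine ⟨3 + ∑ ξ ∈ Ξ, R ξ, by
    have : 0 ≤ ∑ ξ ∈ Ξ, R ξ := Finset.sum_nonneg fun ξ _ => by linarith [hR1 ξ]
    linarith, fun a T m ha hT haT hm1 hm2 ξ hξ w hw => ?_⟩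
  have ha1 : R ξ ≤ a := by
    have h1 : R ξ ≤ ∑ ξ ∈ Ξ, R ξ := Finset.single_le_sum (f := R) (fun ξ _ => by linarith [hR1 ξ]) hξ
    linarith
  have h := hR2 ξ a T m ha1 hT haT hm1 hm2 w hw
  have hT0 : 0 < T := by linarith
  set f : ℝ → ℝ := fun t => ‖(1 / K : ℂ) * ∑ k ∈ Finset.range K, w k * Gk K ξ a T m k t‖ ^ 2 with hf
  have hfm : Measurable f := by
    refine Measurable.pow_const (Measurable.norm ?_) 2
    refine Measurable.const_mul (Finset.measurable_fun_sum _ fun k _ => ?_) _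
    exact (Gk_meas K ξ a T m k).const_mul _
  have hfb : ∀ t, f t ≤ 4 := by
    intro t
    have h1 : ‖∑ k ∈ Finset.range K, w k * Gk K ξ a T m k t‖ ≤ K * 2 := by
      refine (norm_sum_le _ _).trans ?_
      calc _ ≤ ∑ k ∈ Finset.range K, (2 : ℝ) := by
            refine Finset.sum_le_sum fun k _ => ?_
            rw [norm_mul]
            calc _ ≤ 1 * (2 : ℝ) := mul_le_mul (hw k) (Gk_norm _ _ _ _ _ _ _) (norm_nonneg _) zero_le_one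
              _ = 2 := one_mul _
        _ = K * 2 := by rw [Finset.sum_const, Finset.card_range, nsmul_eq_mul]
    have h2 : ‖(1 / K : ℂ) * ∑ k ∈ Finset.range K, w k * Gk K ξ a T m k t‖ ≤ 2 := by
      rw [norm_mul, norm_div, norm_one, Complex.norm_natCast, one_div, inv_mul_le_iff₀ hKr]
      exact h1
    calc f t ≤ 2 ^ 2 := pow_le_pow_left₀ (norm_nonneg _) h2 2
      _ = 4 := by norm_num
  have hfi : IntegrableOn f (Set.Icc T (2 * T)) := by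
    refine Measure.integrableOn_of_bounded (M := 4) (by rw [Real.volume_Icc]; exact ENNReal.ofReal_ne_top)
      hfm.aestronglyMeasurable (Eventually.of_forall fun t => ?_)
    rw [Real.norm_of_nonneg (sq_nonneg _)]
    exact hfb t
  have hfI : ∫ t in Set.Icc T (2 * T), f t ≤ (1 / K + 1 / K) * T := by
    rw [integral_Icc_eq_integral_Ioc, ← intervalIntegral.integral_of_le (by linarith)]
    exact h
  have h4 := cheb hfm (fun t => sq_nonneg _) hfi hfI (show 0 < ε ^ 2 by positivity)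
  refine le_trans (measure_mono ?_) (h4.trans (ENNReal.ofReal_le_ofReal ?_))
  · rintro t ⟨h5, h6⟩
    refine ⟨h5, ?_⟩
    exact pow_lt_pow_left₀ h6 hε.le two_ne_zero
  · rw [div_le_iff₀ (by positivity)]
    calc (1 / (K : ℝ) + 1 / K) * T ≤ (ε ^ 2 * σ) * T := mul_le_mul_of_nonneg_right h2K hT0.le
      _ = σ * T * ε ^ 2 := by ring

end Pool.Agent.R846.VS
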