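import Pool.Agent.R846.VS.D
import Pool.Agent.Y743.NC.Tail

/-! # The ordinates following a height -/

set_option autoImplicit false

namespace Pool.Agent.R846.VS

open Filter Topology MeasureTheory
open Pool.Agent.Y743.CL (Zv Zv_meas)
open Pool.Agent.Y743.NC (dev dev_int dev_nonneg)
open Pool.Agent.R321.QA (hs)
open SG (NZ ord ord_le_iff)

/-- the fluctuation of the number of zeros -/
noncomputable def Dd (T t x : ℝ) : ℝ := (NZ (t + hs x T) : ℝ) - NZ t - x

/-- **the ordinates in terms of the fluctuation of the number of zeros** -/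
lemma inv {T t e R : ℝ} (hL : 0 < Real.log T) (he : 0 < e) {i : ℕ} (hi : 1 ≤ i)
    (hD : |Dd T t (i - 1)| ≤ R)
    (hG : ∀ s : ℤ, |(s : ℝ) * e| ≤ 1 + R + 2 * e → |Dd T t ((i - 1) + s * e) - Dd T t (i - 1)| ≤ e) :
    |(ord (NZ t + i) - t) * (Real.log T / (2 * Real.pi)) - i + Dd T t (i - 1)| ≤ 2 * e := by
  have hpi := Real.pi_pos
  set D := Dd T t (i - 1) with hDd
  have hD' := abs_le.mp hD
  have hn1 : 1 ≤ NZ t + i := by omega
  have hNZ : ∀ y : ℝ, (NZ (t + hs y T) : ℝ) = NZ t + y + Dd T t y := fun y => by unfold Dd; ring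
  have hhs : ∀ y : ℝ, hs y T * (Real.log T / (2 * Real.pi)) = y := fun y => by
    unfold hs; field_simp
  have hk : 0 < Real.log T / (2 * Real.pi) := by positivity
  rw [abs_le]
  constructor
  · -- lower bound
    set s : ℤ := ⌈(1 - D - e) / e⌉ - 1 with hs0
    have h1 : (s : ℝ) * e < 1 - D - e := by
      have := Int.ceil_lt_add_one ((1 - D - e) / e)
      have h2 : (s : ℝ) < (1 - D - e) / e := by rw [hs0]; push_cast; linarith
      rwa [lt_div_iff₀ he] at h2
    have h2 : 1 - D - 2 * e ≤ (s : ℝ) * e := by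
      have := Int.le_ceil ((1 - D - e) / e)
      have h3 : (1 - D - e) / e - 1 ≤ (s : ℝ) := by rw [hs0]; push_cast; linarith
      have h4 : ((1 - D - e) / e - 1) * e ≤ s * e := mul_le_mul_of_nonneg_right h3 he.le
      have h5 : ((1 - D - e) / e - 1) * e = 1 - D - 2 * e := by field_simp; ring
      linarith
    have h3 := (abs_le.mp (hG s (by rw [abs_le]; constructor <;> linarith [hD'.1, hD'.2]))).2
    have h4 : ¬ (NZ t + i ≤ NZ (t + hs ((i - 1) + s * e) T)) := by
      intro h5
      have h6 : ((NZ t + i : ℕ) : ℝ) ≤ NZ (t + hs ((i - 1) + s * e) T) := by exact_mod_cast h5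
      rw [hNZ] at h6
      push_cast at h6
      linarith
    rw [← ord_le_iff hn1, not_le] at h4
    have h5 : (i - 1) + s * e < (ord (NZ t + i) - t) * (Real.log T / (2 * Real.pi)) := by
      rw [← hhs ((i - 1) + s * e)]
      apply mul_lt_mul_of_pos_right _ hk
      linarith
    linarith
  · -- upper bound
    set s : ℤ := ⌈(1 - D + e) / e⌉ with hs0
    have h1 : 1 - D + e ≤ (s : ℝ) * e := by
      have := Int.le_ceil ((1 - D + e) / e)
      rwa [div_le_iff₀ he] at this
    have h2 : (s : ℝ) * e ≤ 1 - D + 2 * e := by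
      have := (Int.ceil_lt_add_one ((1 - D + e) / e)).le
      have h4 : (s : ℝ) * e ≤ ((1 - D + e) / e + 1) * e := mul_le_mul_of_nonneg_right this he.le
      have h5 : ((1 - D + e) / e + 1) * e = 1 - D + 2 * e := by field_simp; ring
      linarith
    have h3 := (abs_le.mp (hG s (by rw [abs_le]; constructor <;> linarith [hD'.1, hD'.2]))).1
    have h4 : NZ t + i ≤ NZ (t + hs ((i - 1) + s * e) T) := by
      have h6 : ((NZ t + i : ℕ) : ℝ) ≤ NZ (t + hs ((i - 1) + s * e) T) := by
        rw [hNZ]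
        push_cast
        linarith
      exact_mod_cast h6
    rw [← ord_le_iff hn1] at h4
    have h5 : (ord (NZ t + i) - t) * (Real.log T / (2 * Real.pi)) ≤ (i - 1) + s * e := by
      rw [← hhs ((i - 1) + s * e)]
      apply mul_le_mul_of_nonneg_right _ hk.le
      linarith
    linarith

lemma dev_meas (T a : ℝ) : Measurable (dev T a) := by
  unfold dev
  have h1 : Measurable fun t : ℝ => (NZ t : ℝ) := measurable_from_nat.comp (SG.NZ_mono.measurable)
  have h2 : Measurable fun t : ℝ => (NZ (t + 2 * Real.pi * a / Real.log T) : ℝ) :=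
    h1.comp (measurable_id.add_const _)
  exact ((h2.sub h1).sub_const _).pow_const 2

/-- the second moment, over a translated range -/
theorem mom : ∃ C R : ℝ, 0 < C ∧ 3 ≤ R ∧ ∀ a T : ℝ, R ≤ a → 1 ≤ T → a * Real.log a ≤ Real.log T →
    100 ≤ T ∧ a ≤ Real.log T ∧ ∀ y c : ℝ, 0 < y → y ≤ 2 * a → |c| ≤ 14 →
    IntegrableOn (fun t => dev T y (t + c)) (Set.Icc (T + 14) (2 * T - 14)) ∧
    ∫ t in Set.Icc (T + 14) (2 * T - 14), dev T y (t + c) ≤ (Real.log (1 + y) + C) * T := by
  obtain ⟨C, T0, hC, hT0, hnv⟩ := Pool.Agent.TH850.UV.nv2 4 (by norm_num)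
  refine ⟨C, max 3 (Real.log (max T0 100) + 1), hC, le_max_left _ _, fun a T ha hT haT => ?_⟩
  have ha3 : 3 ≤ a := (le_max_left _ _).trans ha
  have ha1 : Real.log (max T0 100) + 1 ≤ a := (le_max_right _ _).trans ha
  have hla : 1 ≤ Real.log a := by
    rw [Real.le_log_iff_exp_le (by linarith)]
    linarith [Real.exp_one_lt_d9]
  have haL : a ≤ Real.log T := by nlinarith
  have hTT : max T0 100 ≤ T := by
    by_contra hcon
    have := Real.log_le_log (by linarith : 0 < T) (not_le.1 hcon).le
    linarith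
  have hT0' : T0 ≤ T := (le_max_left _ _).trans hTT
  have hT100 : 100 ≤ T := (le_max_right _ _).trans hTT
  refine ⟨hT100, haL, fun y c hy hya hc => ?_⟩
  have hpi := Real.pi_pos
  have hpi3 := Real.pi_gt_three
  have hyL : y * Real.log y ≤ 4 * Real.log T := by
    rcases le_or_gt y 1 with h1 | h1
    · have h2 : Real.log y ≤ 0 := Real.log_nonpos hy.le h1
      nlinarith
    · have h2 : Real.log y ≤ Real.log 2 + Real.log a := by
        rw [← Real.log_mul (by norm_num) (by linarith)]
        exact Real.log_le_log hy hya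
      have h3 := Real.log_two_lt_d9
      have h4 : 0 ≤ Real.log y := Real.log_nonneg h1.le
      have h5 : Real.log y ≤ 2 * Real.log a := by linarith
      calc y * Real.log y ≤ (2 * a) * (2 * Real.log a) := mul_le_mul hya h5 h4 (by linarith)
        _ = 4 * (a * Real.log a) := by ring
        _ ≤ 4 * Real.log T := by linarith
  have h4 := (hnv T hT0' y hy hyL).2
  have hh0 : 0 ≤ 2 * Real.pi * y / Real.log T := by
    have : 0 < Real.log T := by linarith
    positivity
  have e1 : ∫ t in T..(2 * T),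
      ((Pool.Agent.TH850.UV.cnt t (2 * Real.pi * y / Real.log T) : ℝ) - y) ^ 2 =
      ∫ t in T..(2 * T), dev T y t := by
    refine intervalIntegral.integral_congr fun t ht => ?_
    rw [Set.uIcc_of_le (by linarith)] at ht
    show ((Pool.Agent.TH850.UV.cnt t (2 * Real.pi * y / Real.log T) : ℝ) - y) ^ 2 = _
    rw [Pool.Agent.Y743.LR.cnt_NZ (by linarith [ht.1]) hh0]
    rfl
  rw [e1] at h4
  have h5 := (abs_le.mp h4).2
  have h6 : ∫ t in T..(2 * T), dev T y t ≤ (Real.log (1 + y) + C) * T := by
    have h7 : 0 ≤ Real.log (1 + y) := Real.log_nonneg (by linarith)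
    have h8 : T / Real.pi ^ 2 * Real.log (1 + y) ≤ T * Real.log (1 + y) := by
      apply mul_le_mul_of_nonneg_right _ h7
      rw [div_le_iff₀ (by positivity)]
      have h9 : 1 ≤ Real.pi ^ 2 := by nlinarith
      calc T = T * 1 := (mul_one T).symm
        _ ≤ T * Real.pi ^ 2 := mul_le_mul_of_nonneg_left h9 (by linarith)
    linarith
  have hc' := abs_le.mp hc
  set f : ℝ → ℝ := fun t => dev T y (t + c) with hf
  have hpre : (fun t : ℝ => t + c) ⁻¹' (Set.Icc (T + 14 + c) (2 * T - 14 + c)) =
      Set.Icc (T + 14) (2 * T - 14) := by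
    ext x
    simp only [Set.mem_preimage, Set.mem_Icc]
    constructor <;> rintro ⟨g1, g2⟩ <;> constructor <;> linarith
  have hfi : IntegrableOn f (Set.Icc (T + 14) (2 * T - 14)) := by
    have h1 := (measurePreserving_add_right volume c).integrableOn_comp_preimage
      (MeasurableEquiv.addRight c).measurableEmbedding (f := dev T y)
      (s := Set.Icc (T + 14 + c) (2 * T - 14 + c))
    rw [hpre] at h1
    exact h1.mpr (dev_int T y _ _)
  have hfI : ∫ t in Set.Icc (T + 14) (2 * T - 14), f t ≤ (Real.log (1 + y) + C) * T := by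
    have h1 := (measurePreserving_add_right volume c).setIntegral_preimage_emb
      (MeasurableEquiv.addRight c).measurableEmbedding (dev T y) (Set.Icc (T + 14 + c) (2 * T - 14 + c))
    rw [hpre] at h1
    have h2 : ∫ t in Set.Icc (T + 14 + c) (2 * T - 14 + c), dev T y t ≤
        ∫ t in Set.Icc T (2 * T), dev T y t :=
      setIntegral_mono_set (dev_int T y _ _) (Eventually.of_forall fun _ => dev_nonneg _ _ _)
        (Set.Icc_subset_Icc (by linarith) (by linarith)).eventuallyLE
    rw [integral_Icc_eq_integral_Ioc (f := dev T y) (x := T),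
      ← intervalIntegral.integral_of_le (by linarith)] at h2
    calc _ = _ := h1
      _ ≤ _ := h2
      _ ≤ _ := h6
  exact ⟨hfi, hfI⟩

lemma Dd_dev (T t x h : ℝ) : (Dd T t (x + h) - Dd T t x) ^ 2 = dev T |h| (t + hs (min x (x + h)) T) := by
  unfold Dd dev
  rcases le_total 0 h with h0 | h0
  · rw [abs_of_nonneg h0, min_eq_left (by linarith)]
    have e1 : t + hs x T + 2 * Real.pi * h / Real.log T = t + hs (x + h) T := by unfold hs; ring
    rw [e1]
    ring
  · rw [abs_of_nonpos h0, min_eq_right (by linarith)]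
    have e1 : t + hs (x + h) T + 2 * Real.pi * (-h) / Real.log T = t + hs x T := by unfold hs; ring
    rw [e1]
    ring

lemma Dd_sq (T t x : ℝ) : (Dd T t x) ^ 2 = dev T x (t + 0) := by
  unfold Dd dev
  rw [add_zero]

lemma Zv_dev' {a : ℝ} (ha : 0 ≤ Real.log a) (T u : ℝ) : Zv a T u ^ 2 = Real.pi ^ 2 / Real.log a * dev T a u := by
  unfold Zv dev
  rw [div_pow, Real.sq_sqrt ha]
  ring

lemma dev_zero (T u : ℝ) : dev T 0 u = 0 := by
  unfold dev
  simp

end Pool.Agent.R846.VS
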