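import Pool.Agent.R846.VS.E

/-! # Runs of ordinates and fixed finite-dimensional spaces of sequences -/

set_option autoImplicit false

namespace Pool.Agent.R846.VS

open Filter Topology MeasureTheory
open Pool.Agent.Y743.CL (Zv Zv_meas)
open Pool.Agent.Y743.NC (dev dev_int dev_nonneg)
open Pool.Agent.R321.QA (hs)
open SG (NZ ord ord_le_iff)

/-- the positions -/
def Ps (K a b : ℕ) : Finset ℕ :=
  (Finset.range K).image (fun k => k * b) ∪ (Finset.range K).image (fun k => k * b + a)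

lemma Ps_card (K a b : ℕ) : (Ps K a b).card ≤ 2 * K := by
  unfold Ps
  refine (Finset.card_union_le _ _).trans ?_
  have h1 : ((Finset.range K).image (fun k => k * b)).card ≤ K := by
    simpa using Finset.card_image_le (s := Finset.range K) (f := fun k => k * b)
  have h2 : ((Finset.range K).image (fun k => k * b + a)).card ≤ K := by
    simpa using Finset.card_image_le (s := Finset.range K) (f := fun k => k * b + a)
  omega

lemma Ps_mem1 {K a b k : ℕ} (hk : k < K) : k * b ∈ Ps K a b :=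
  Finset.mem_union_left _ (Finset.mem_image.2 ⟨k, Finset.mem_range.2 hk, rfl⟩)

lemma Ps_mem2 {K a b k : ℕ} (hk : k < K) : k * b + a ∈ Ps K a b :=
  Finset.mem_union_right _ (Finset.mem_image.2 ⟨k, Finset.mem_range.2 hk, rfl⟩)

lemma Ps_le {K a b x : ℕ} (hK : K * b ≤ a) (hx : x ∈ Ps K a b) : x ≤ K * b + a := by
  rcases Finset.mem_union.1 hx with h | h
  · obtain ⟨k, hk, rfl⟩ := Finset.mem_image.1 h
    have : k * b ≤ K * b := Nat.mul_le_mul_right _ (Finset.mem_range.1 hk).le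
    omega
  · obtain ⟨k, hk, rfl⟩ := Finset.mem_image.1 h
    have : k * b ≤ K * b := Nat.mul_le_mul_right _ (Finset.mem_range.1 hk).le
    omega

lemma Dd_Zv {a : ℝ} (ha : 0 < Real.log a) (T t x : ℝ) :
    Dd T t (x + a) - Dd T t x = -(Real.sqrt (Real.log a) / Real.pi * Zv a T (t + hs x T)) := by
  have hs0 : 0 < Real.sqrt (Real.log a) := Real.sqrt_pos.2 ha
  have hpi := Real.pi_pos
  have e1 : t + hs x T + 2 * Real.pi * a / Real.log T = t + hs (x + a) T := by unfold hs; ring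
  unfold Zv Dd
  rw [e1]
  field_simp
  ring

/-- one position -/
lemma pos1 {T t e R : ℝ} {S x : ℕ} (hL : 0 < Real.log T) (he : 0 < e) (hR : 0 ≤ R)
    (hS : 1 + R + 2 * e ≤ S * e) (h2 : dev T x (t + 0) ≤ R ^ 2)
    (h3 : ∀ s ∈ Finset.Icc (-(S : ℤ)) S, dev T |(s : ℝ) * e| (t + hs (min (x : ℝ) (x + s * e)) T) ≤ e ^ 2) :
    |(ord (NZ t + 1 + x) - t) * (Real.log T / (2 * Real.pi)) - (x + 1) + Dd T t x| ≤ 2 * e := by
  have h := inv (T := T) (t := t) (e := e) (R := R) hL he (i := x + 1) (by omega)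
    (by
      push_cast
      rw [add_sub_cancel_right, ← abs_of_nonneg hR, ← sq_le_sq, Dd_sq]
      exact h2)
    (by
      intro s hs'
      push_cast
      rw [add_sub_cancel_right, ← abs_of_pos he]
      have h4 : (Dd T t (x + s * |e|) - Dd T t x) ^ 2 ≤ e ^ 2 := by
        rw [abs_of_pos he, Dd_dev]
        apply h3 s
        have h5 : |(s : ℝ)| * e ≤ S * e := by
          rw [← abs_of_pos he] at hs' ⊢
          rw [← abs_mul] 
          rw [abs_of_pos he] at hs' ⊢
          linarith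
        have h6 : |(s : ℝ)| ≤ S := le_of_mul_le_mul_right h5 he
        have h7 : |s| ≤ (S : ℤ) := by exact_mod_cast h6
        rw [Finset.mem_Icc]
        exact abs_le.1 h7
      exact sq_le_sq.1 h4 |> fun h => by simpa using h)
  push_cast at h
  rw [add_sub_cancel_right] at h
  have e1 : NZ t + (x + 1) = NZ t + 1 + x := by omega
  rw [e1] at h
  exact h


/-- **the deterministic part** -/
lemma det {κ : ℕ} {M T t e R : ℝ} {a b K L S : ℕ} (ha : 1 ≤ Real.log a) (hT : 0 < Real.log T)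
    (hKL : K * b + a ≤ L) (hKb : K * b ≤ a)
    (hLa : Real.sqrt (Real.log L) ≤ 2 * Real.sqrt (Real.log a))
    (he : e = Real.sqrt (Real.log a) / 13) (hR : 0 ≤ R) (hS : 1 + R + 2 * e ≤ S * e)
    (h2 : ∀ x ∈ Ps K a b, dev T x (t + 0) ≤ R ^ 2)
    (h3 : ∀ x ∈ Ps K a b, ∀ s ∈ Finset.Icc (-(S : ℤ)) S,
      dev T |(s : ℝ) * e| (t + hs (min (x : ℝ) (x + s * e)) T) ≤ e ^ 2)
    (v : Fin κ → ℕ → ℝ) (c : Fin κ → ℝ)
    (h : ∀ j ≤ L, |ord (NZ t + 1 + j) - ∑ i, c i * v i j| ≤ M * Real.sqrt (Real.log L) / Real.log T) :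
    ∃ α : Fin (κ + 1) → ℝ, ∀ k < K, |Zv a T (t + hs ((k : ℝ) * b) T) -
      ∑ l, α l * (Fin.cons (fun _ => 1) (fun i k => v i (k * b + a) - v i (k * b)) :
        Fin (κ + 1) → ℕ → ℝ) l k| ≤ 2 * |M| + 1 := by
  have hpi := Real.pi_pos
  have hs1 : 1 ≤ Real.sqrt (Real.log a) := Real.one_le_sqrt.2 ha
  have hs0 : 0 < Real.sqrt (Real.log a) := by linarith
  set r := Real.sqrt (Real.log a) with hr
  have he0 : 0 < e := by rw [he]; positivity
  set ℓ := Real.log T / (2 * Real.pi) with hℓ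
  have hℓ0 : 0 < ℓ := by positivity
  refine ⟨Fin.cons (-(Real.pi * a / r)) (fun i => Real.pi / r * (c i * ℓ)), fun k hk => ?_⟩
  rw [Fin.sum_univ_succ]
  simp only [Fin.cons_zero, Fin.cons_succ, mul_one]
  have hx1 := Ps_mem1 (a := a) (b := b) hk
  have hx2 := Ps_mem2 (a := a) (b := b) hk
  have hkb : k * b ≤ K * b := Nat.mul_le_mul_right _ hk.le
  have g1 := pos1 (x := k * b) hT he0 hR hS (h2 _ hx1) (h3 _ hx1)
  have g2 := pos1 (x := k * b + a) hT he0 hR hS (h2 _ hx2) (h3 _ hx2)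
  have d1 := h (k * b) (by omega)
  have d2 := h (k * b + a) (by omega)
  have hZ := Dd_Zv (a := a) (by linarith) T t ((k : ℝ) * b)
  rw [← hr] at hZ
  push_cast at g1 g2
  set z := Zv a T (t + hs ((k : ℝ) * b) T) with hz
  set o1 := ord (NZ t + 1 + k * b) with ho1
  set o2 := ord (NZ t + 1 + (k * b + a)) with ho2
  set D1 := Dd T t ((k : ℝ) * b) with hD1
  set D2 := Dd T t ((k : ℝ) * b + a) with hD2
  set V := ∑ i, c i * (v i (k * b + a) - v i (k * b)) with hV
  have hV1 : V = ∑ i, c i * v i (k * b + a) - ∑ i, c i * v i (k * b) := by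
    rw [hV, ← Finset.sum_sub_distrib]
    exact Finset.sum_congr rfl fun i _ => by ring
  have hsum : ∑ i, Real.pi / r * (c i * ℓ) * (v i (k * b + a) - v i (k * b)) = Real.pi / r * (ℓ * V) := by
    rw [hV, Finset.mul_sum, Finset.mul_sum]
    exact Finset.sum_congr rfl fun i _ => by ring
  rw [hsum]
  set δ := M * Real.sqrt (Real.log L) / Real.log T with hδ
  have hδℓ : δ * ℓ * (2 * Real.pi) ≤ 2 * |M| * r := by
    have e1 : δ * ℓ * (2 * Real.pi) = M * Real.sqrt (Real.log L) := by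
      rw [hδ, hℓ]; field_simp
    rw [e1]
    calc M * Real.sqrt (Real.log L) ≤ |M| * Real.sqrt (Real.log L) :=
          mul_le_mul_of_nonneg_right (le_abs_self M) (Real.sqrt_nonneg _)
      _ ≤ |M| * (2 * r) := mul_le_mul_of_nonneg_left hLa (abs_nonneg M)
      _ = 2 * |M| * r := by ring
  -- the ordinates
  have f1 : |(o2 - o1) * ℓ - a - r / Real.pi * z| ≤ 4 * e := by
    have e1 : (o2 - o1) * ℓ - a - r / Real.pi * z =
        ((o2 - t) * ℓ - ((k : ℝ) * b + a + 1) + D2) - ((o1 - t) * ℓ - ((k : ℝ) * b + 1) + D1) := by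
      have : D2 = D1 - r / Real.pi * z := by linarith
      rw [this]; ring
    rw [e1]
    refine (abs_sub _ _).trans ?_
    linarith
  have f2 : |(o2 - o1) * ℓ - ℓ * V| ≤ 2 * δ * ℓ := by
    have e1 : (o2 - o1) * ℓ - ℓ * V = ((o2 - ∑ i, c i * v i (k * b + a)) -
        (o1 - ∑ i, c i * v i (k * b))) * ℓ := by rw [hV1]; ring
    rw [e1, abs_mul, abs_of_pos hℓ0]
    apply mul_le_mul_of_nonneg_right _ hℓ0.le
    refine (abs_sub _ _).trans ?_
    linarith
  have e2 : z - (-(Real.pi * a / r) + Real.pi / r * (ℓ * V)) =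
      Real.pi / r * ((((o2 - o1) * ℓ - ℓ * V)) - ((o2 - o1) * ℓ - a - r / Real.pi * z)) := by
    field_simp
    ring
  rw [e2, abs_mul, abs_of_pos (by positivity)]
  have f3 : |((o2 - o1) * ℓ - ℓ * V) - ((o2 - o1) * ℓ - a - r / Real.pi * z)| ≤ 2 * δ * ℓ + 4 * e :=
    (abs_sub _ _).trans (add_le_add f2 f1)
  calc _ ≤ Real.pi / r * (2 * δ * ℓ + 4 * e) := mul_le_mul_of_nonneg_left f3 (by positivity)
    _ = (δ * ℓ * (2 * Real.pi) + 4 * Real.pi * e) / r := by ring
    _ ≤ (2 * |M| * r + r) / r := by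
        apply div_le_div_of_nonneg_right _ hs0.le
        have h5 : 4 * Real.pi * e ≤ r := by
          rw [he]
          have := Real.pi_lt_d2
          have h6 : 4 * Real.pi ≤ 13 := by linarith
          calc 4 * Real.pi * (r / 13) ≤ 13 * (r / 13) := mul_le_mul_of_nonneg_right h6 (by positivity)
            _ = r := by ring
        linarith
    _ = 2 * |M| + 1 := by field_simp

end Pool.Agent.R846.VS
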