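import Pool.Agent.R846.VS.J
import Mathlib.Algebra.MvPolynomial.Eval
import Mathlib.Algebra.MvPolynomial.Degrees
import Mathlib.LinearAlgebra.Matrix.Dual
import Mathlib.LinearAlgebra.Dual.Lemmas

/-! # Subspaces and polynomials -/

set_option autoImplicit false

open Filter Topology MeasureTheory Set

namespace Pool.Agent.R846.VS

open SG (ord NZ)
open Pool.Agent.R846.UL (cn cn_eq cn_mono)

/-- the theorem for subspaces -/
theorem vs_sub (k : ℕ) (M : ℝ) {η : ℝ} (hη : 0 < η) : ∃ L₀ : ℕ, ∀ L : ℕ, L₀ ≤ L → ∀ N : ℕ, 1 ≤ N →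
    (L : ℝ) * Real.log L ≤ Real.log N → ∀ V : Submodule ℝ (Fin (L + 1) → ℝ), Module.finrank ℝ V ≤ k →
    cn N {n | ∃ w ∈ V, ∀ j : Fin (L + 1), |ord (n + j) - w j| ≤
      M * Real.sqrt (Real.log L) / Real.log (ord n)} ≤ η * N := by
  choose L0 hL0 using fun κ : ℕ => vs_ord κ M hη
  refine ⟨∑ κ ∈ Finset.range (k + 1), L0 κ, fun L hL N hN hLN V hV => ?_⟩
  set d := Module.finrank ℝ V with hd
  have h1 : L0 d ≤ L :=
    (Finset.single_le_sum (f := L0) (fun _ _ => Nat.zero_le _)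
      (Finset.mem_range.2 (Nat.lt_succ_iff.2 hV))).trans hL
  let b := Module.finBasis ℝ V
  refine le_trans (cn_mono fun n _ _ hn => ?_) (hL0 d L h1 N hN hLN
    (fun i j => if h : j < L + 1 then (b i : Fin (L + 1) → ℝ) ⟨j, h⟩ else 0))
  obtain ⟨w, hw, hwj⟩ := hn
  refine ⟨fun i => b.repr ⟨w, hw⟩ i, fun j hj => ?_⟩
  have hj' : j < L + 1 := by omega
  have h2 := hwj ⟨j, hj'⟩
  have h3 : w ⟨j, hj'⟩ = ∑ i, b.repr ⟨w, hw⟩ i * (b i : Fin (L + 1) → ℝ) ⟨j, hj'⟩ := by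
    have h4 := b.sum_repr ⟨w, hw⟩
    have h5 : ∑ i, b.repr ⟨w, hw⟩ i • (b i : Fin (L + 1) → ℝ) = w := by
      have h7 := congrArg V.subtype h4
      rw [map_sum] at h7
      simp only [map_smul, Submodule.subtype_apply] at h7
      exact h7
    have h6 := congrFun h5 ⟨j, hj'⟩
    rw [Finset.sum_apply] at h6
    exact h6.symm
  simp only [hj', dite_true]
  rw [← h3]
  exact h2

/-- the theorem for subspaces, and for spaces of relations -/
theorem vs_rel (k : ℕ) (M : ℝ) {η : ℝ} (hη : 0 < η) : ∃ L₀ : ℕ, ∀ L : ℕ, L₀ ≤ L → ∀ N : ℕ, 1 ≤ N →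
    (L : ℝ) * Real.log L ≤ Real.log N →
    (∀ V : Submodule ℝ (Fin (L + 1) → ℝ), Module.finrank ℝ V ≤ k →
      cn N {n | ∃ w ∈ V, ∀ j : Fin (L + 1), |ord (n + j) - w j| ≤
        M * Real.sqrt (Real.log L) / Real.log (ord n)} ≤ η * N) ∧
    (∀ R : Submodule ℝ (Fin (L + 1) → ℝ), L + 1 ≤ Module.finrank ℝ R + k →
      cn N {n | ∀ a ∈ R, ∑ j : Fin (L + 1), a j * ord (n + j) = 0} ≤ η * N) := by
  obtain ⟨L1, hL1⟩ := vs_sub k M hη
  obtain ⟨L2, hL2⟩ := vs_sub k 0 hη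
  refine ⟨max L1 L2, fun L hL N hN hLN =>
    ⟨hL1 L ((le_max_left _ _).trans hL) N hN hLN, fun R hR => ?_⟩⟩
  set e := dotProductEquiv ℝ (Fin (L + 1)) with he
  set V : Submodule ℝ (Fin (L + 1) → ℝ) := (R.map e.toLinearMap).dualCoannihilator with hV
  have h1 : Module.finrank ℝ V ≤ k := by
    have h2 : Module.finrank ℝ (R.map e.toLinearMap) + Module.finrank ℝ V =
        Module.finrank ℝ (Fin (L + 1) → ℝ) :=
      Subspace.finrank_add_finrank_dualCoannihilator_eq (R.map e.toLinearMap)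
    have h3 : Module.finrank ℝ (R.map e.toLinearMap) = Module.finrank ℝ R :=
      LinearEquiv.finrank_map_eq e R
    have h4 : Module.finrank ℝ (Fin (L + 1) → ℝ) = L + 1 := Module.finrank_fin_fun ℝ
    rw [h3, h4] at h2
    exact Nat.le_of_add_le_add_left (h2.le.trans hR)
  refine le_trans (cn_mono fun n _ _ hn => ?_) (hL2 L ((le_max_right _ _).trans hL) N hN hLN V h1)
  refine ⟨fun j => ord (n + j), ?_, fun j => ?_⟩
  · rw [hV, Submodule.mem_dualCoannihilator]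
    intro φ hφ
    obtain ⟨a, ha, rfl⟩ := Submodule.mem_map.1 hφ
    exact hn a ha
  · rw [sub_self, abs_zero, zero_mul, zero_div]

/-- the theorem for arbitrary finite index types -/
theorem vs_fin (ι : Type) [Fintype ι] (M : ℝ) {η : ℝ} (hη : 0 < η) : ∃ L₀ : ℕ, ∀ L : ℕ, L₀ ≤ L →
    ∀ N : ℕ, 1 ≤ N → (L : ℝ) * Real.log L ≤ Real.log N → ∀ v : ι → ℕ → ℝ,
    cn N {n | ∃ c : ι → ℝ, ∀ j ≤ L, |ord (n + j) - ∑ i, c i * v i j| ≤
      M * Real.sqrt (Real.log L) / Real.log (ord n)} ≤ η * N := by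
  obtain ⟨L0, hL0⟩ := vs_ord (Fintype.card ι) M hη
  refine ⟨L0, fun L hL N hN hLN v => ?_⟩
  let e := Fintype.equivFin ι
  refine le_trans (cn_mono fun n _ _ hn => ?_) (hL0 L hL N hN hLN (fun i => v (e.symm i)))
  obtain ⟨c, hc⟩ := hn
  refine ⟨fun i => c (e.symm i), fun j hj => ?_⟩
  have h1 := e.symm.sum_comp (fun i => c i * v i j)
  rw [h1]
  exact hc j hj

/-- polynomials of degree at most `d` in each variable -/
lemma eval_box {r d : ℕ} (P : MvPolynomial (Fin r) ℝ) (hP : ∀ i, P.degreeOf i ≤ d) (x : Fin r → ℝ) :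
    MvPolynomial.eval x P = ∑ e : Fin r → Fin (d + 1),
      P.coeff (Finsupp.equivFunOnFinite.symm fun i => (e i : ℕ)) * ∏ i, x i ^ (e i : ℕ) := by
  classical
  rw [MvPolynomial.eval_eq']
  set φ : (Fin r → Fin (d + 1)) → (Fin r →₀ ℕ) := fun e =>
    Finsupp.equivFunOnFinite.symm fun i => (e i : ℕ) with hφ
  have hinj : Function.Injective φ := by
    intro e e' h
    funext i
    have h1 := DFunLike.congr_fun h i
    simp only [hφ, Finsupp.equivFunOnFinite_symm_apply_apply] at h1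
    exact Fin.ext h1
  have h1 : ∑ e : Fin r → Fin (d + 1), P.coeff (φ e) * ∏ i, x i ^ (e i : ℕ) =
      ∑ m ∈ Finset.univ.image φ, P.coeff m * ∏ i, x i ^ (m i) := by
    rw [Finset.sum_image (fun a _ b _ h => hinj h)]
    refine Finset.sum_congr rfl fun e _ => ?_
    congr 1
  rw [h1]
  refine Finset.sum_subset ?_ ?_
  · intro m hm
    rw [Finset.mem_image]
    refine ⟨fun i => ⟨m i, ?_⟩, Finset.mem_univ _, ?_⟩
    · have h2 := MvPolynomial.monomial_le_degreeOf i hm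
      have h3 := hP i
      omega
    · ext i
      simp [hφ]
  · intro m _ hm
    rw [MvPolynomial.notMem_support_iff.1 hm, zero_mul]

/-- the theorem for polynomials -/
theorem vs_poly (r d : ℕ) (M : ℝ) {η : ℝ} (hη : 0 < η) : ∃ L₀ : ℕ, ∀ L : ℕ, L₀ ≤ L → ∀ N : ℕ, 1 ≤ N →
    (L : ℝ) * Real.log L ≤ Real.log N → ∀ y : Fin r → ℕ → ℝ,
    cn N {n | ∃ P : MvPolynomial (Fin r) ℝ, (∀ i, P.degreeOf i ≤ d) ∧ ∀ j ≤ L,
      |ord (n + j) - MvPolynomial.eval (fun i => y i j) P| ≤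
      M * Real.sqrt (Real.log L) / Real.log (ord n)} ≤ η * N := by
  obtain ⟨L0, hL0⟩ := vs_fin (Fin r → Fin (d + 1)) M hη
  refine ⟨L0, fun L hL N hN hLN y => ?_⟩
  refine le_trans (cn_mono fun n _ _ hn => ?_) (hL0 L hL N hN hLN
    (fun e j => ∏ i, y i j ^ (e i : ℕ)))
  obtain ⟨P, hP, hPj⟩ := hn
  refine ⟨fun e => P.coeff (Finsupp.equivFunOnFinite.symm fun i => (e i : ℕ)), fun j hj => ?_⟩
  rw [← eval_box P hP (fun i => y i j)]
  exact hPj j hj

end Pool.Agent.R846.VS
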